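import Mathlib

/-!
Project FR (MP_dcb6ed_co, MP_6d56f7_co): perfect fractional list edge colourings.
Definitions for the deterministic part.  `V = Fin N` are the vertices, `C = Fin M` the colours
(`N = M + 1`), `H u v c` says that the colour `c` is in the list of the edge `uv`.
All counts are real sums of indicators over ordered pairs.
-/

set_option autoImplicit false

namespace Pool.Agent.FR

open Finset Classical

/-- Degree of the edge `uv`: the length of its list. -/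
noncomputable def dE {N M : ℕ} (H : Fin N → Fin N → Fin M → Prop) (u v : Fin N) : ℝ :=
  ∑ c, if H u v c then (1 : ℝ) else 0

/-- Degree of the pair `(u, c)`: the number of edges at `u` with `c` in their list. -/
noncomputable def dC {N M : ℕ} (H : Fin N → Fin N → Fin M → Prop) (u : Fin N) (c : Fin M) : ℝ :=
  ∑ v, if H u v c then (1 : ℝ) else 0

/-- Pairs between `F` and `G` in the graph of a relation. -/
noncomputable def eB {α β : Type} (B : α → β → Prop) (F : Finset α) (G : Finset β) : ℝ :=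
  ∑ x ∈ F, ∑ y ∈ G, if B x y then (1 : ℝ) else 0

/-- Weak discrepancy of a bipartite relation with density `p`, scale `D`, error `η`. -/
def WD {α β : Type} (B : α → β → Prop) (p D η : ℝ) : Prop :=
  ∀ (F : Finset α) (G : Finset β),
    |eB B F G - p * F.card * G.card| ≤ η * D * max (F.card : ℝ) (G.card : ℝ)

/-- Value of a function on the triple `u v c`. -/
def val {N M : ℕ} (a : Fin N → Fin N → ℝ) (b : Fin N → Fin M → ℝ) (u v : Fin N) (c : Fin M) : ℝ :=
  a u v + b u c + b v c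

/-- Number of ordered triples with a property. -/
noncomputable def n3 {N M : ℕ} (P : Fin N → Fin N → Fin M → Prop) : ℝ :=
  ∑ u, ∑ v, ∑ c, if P u v c then (1 : ℝ) else 0

/-- Ordered number of the entries of `(a, b)` with absolute value at least `t`. -/
noncomputable def sz {N M : ℕ} (a : Fin N → Fin N → ℝ) (b : Fin N → Fin M → ℝ) (t : ℝ) : ℝ :=
  (∑ u, ∑ v, if t ≤ |a u v| then (1 : ℝ) else 0) + 2 * ∑ u, ∑ c, if t ≤ |b u c| then (1 : ℝ) else 0

/-- Ordered `l^1` norm. -/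
noncomputable def nrm {N M : ℕ} (a : Fin N → Fin N → ℝ) (b : Fin N → Fin M → ℝ) : ℝ :=
  (∑ u, ∑ v, |a u v|) + 2 * ∑ u, ∑ c, |b u c|

/-- Zero is a median of `x`. -/
def MedZero {M : ℕ} (x : Fin M → ℝ) : Prop :=
  (M : ℝ) ≤ 2 * (∑ c, if 0 ≤ x c then (1 : ℝ) else 0) ∧
  (M : ℝ) ≤ 2 * (∑ c, if x c ≤ 0 then (1 : ℝ) else 0)

/-- `(a, b)` is symmetric, vanishes on the diagonal and on the removed elements, and has zero
medians. -/
structure Adm {N M : ℕ} (RE : Fin N → Fin N → Prop) (RC : Fin N → Fin M → Prop)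
    (a : Fin N → Fin N → ℝ) (b : Fin N → Fin M → ℝ) : Prop where
  symm : ∀ u v, a u v = a v u
  diag : ∀ u, a u u = 0
  offE : ∀ u v, RE u v → a u v = 0
  offC : ∀ u c, RC u c → b u c = 0
  med : ∀ u, MedZero (b u)

/-- The triples that survive the removal. -/
def Good {N M : ℕ} (H : Fin N → Fin N → Fin M → Prop) (RE : Fin N → Fin N → Prop)
    (RC : Fin N → Fin M → Prop) (u v : Fin N) (c : Fin M) : Prop :=
  H u v c ∧ ¬ RE u v ∧ ¬ RC u c ∧ ¬ RC v c

/-- Pseudorandomness of the lists, without lower bounds on degrees. `D = p * M`. -/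
structure Rnd (N M : ℕ) (H : Fin N → Fin N → Fin M → Prop) (p η : ℝ) : Prop where
  hNM : N = M + 1
  p0 : 0 < p
  p1 : p ≤ 1
  symm : ∀ u v c, H u v c → H v u c
  irr : ∀ u c, ¬ H u u c
  upE : ∀ u v, dE H u v ≤ 64 * (p * M)
  upC : ∀ u c, dC H u c ≤ 64 * (p * M)
  wdc : ∀ c, WD (fun u v => H u v c) p (p * M) η
  wdv : ∀ u, WD (fun v c => H u v c) p (p * M) η

/-- Every bounded integral function which is bad on many triples of the complete system is bad on
many triples of `H`. -/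
def Dns (N M : ℕ) (H : Fin N → Fin N → Fin M → Prop) (p c5 : ℝ) (L : ℕ) : Prop :=
  ∀ (a : Fin N → Fin N → ℤ) (b : Fin N → Fin M → ℤ), (∀ u v, a u v = a v u) →
    (∀ u v, |a u v| ≤ L) → (∀ u c, |b u c| ≤ L) →
    c5 * N ^ 3 ≤ n3 (fun (u v : Fin N) (c : Fin M) => u ≠ v ∧ 8 ≤ |a u v + b u c + b v c|) →
    p / 2 * n3 (fun (u v : Fin N) (c : Fin M) => u ≠ v ∧ 8 ≤ |a u v + b u c + b v c|) ≤
      n3 (fun (u v : Fin N) (c : Fin M) => H u v c ∧ 8 ≤ |a u v + b u c + b v c|)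

/-- The removed elements: lower bounds for the degrees off them, few triples meet them. -/
structure Rem (N M : ℕ) (H : Fin N → Fin N → Fin M → Prop) (RE : Fin N → Fin N → Prop)
    (RC : Fin N → Fin M → Prop) (p δ m0 : ℝ) : Prop where
  symm : ∀ u v, RE u v → RE v u
  lowE : ∀ u v, u ≠ v → ¬ RE u v → δ * (p * M) ≤ dE H u v
  lowC : ∀ u c, ¬ RC u c → δ * (p * M) ≤ dC H u c
  lossE : ∀ u v, u ≠ v → ¬ RE u v →
    (∑ c, if H u v c ∧ (RC u c ∨ RC v c) then (1 : ℝ) else 0) ≤ m0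
  lossC : ∀ u c, ¬ RC u c →
    (∑ v, if H u v c ∧ (RE u v ∨ RC v c) then (1 : ℝ) else 0) ≤ m0

/-- Few neighbours of atypical degree. -/
structure Atyp (N M : ℕ) (H : Fin N → Fin N → Fin M → Prop) (p κ : ℝ) : Prop where
  cc : ∀ u c, (∑ v, if H u v c ∧ κ * (p * M) < |dC H v c - p * M| then (1 : ℝ) else 0)
    ≤ κ * (p * M)
  ce : ∀ u c, (∑ v, if H u v c ∧ κ * (p * M) < |dE H u v - p * M| then (1 : ℝ) else 0)
    ≤ κ * (p * M)
  ec : ∀ u v, (∑ c, if H u v c ∧ κ * (p * M) < |dC H u c - p * M| then (1 : ℝ) else 0)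
    ≤ κ * (p * M)

/-- Heavy vertices. -/
def HU {N M : ℕ} (TE : Fin N → Fin N → Prop) (TC : Fin N → Fin M → Prop) (α : ℝ) (u : Fin N) : Prop :=
  α * N ≤ (∑ v, if TE u v then (1 : ℝ) else 0) + ∑ c, if TC u c then (1 : ℝ) else 0

/-- Heavy colours. -/
def HC {N M : ℕ} (TC : Fin N → Fin M → Prop) (α : ℝ) (c : Fin M) : Prop :=
  α * N ≤ ∑ u, if TC u c then (1 : ℝ) else 0

/-- Total size of a set of elements. -/
noncomputable def tot {N M : ℕ} (TE : Fin N → Fin N → Prop) (TC : Fin N → Fin M → Prop) : ℝ :=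
  (∑ u, ∑ v, if TE u v then (1 : ℝ) else 0) + 2 * ∑ u, ∑ c, if TC u c then (1 : ℝ) else 0

/-- Nonzero edge entries. -/
def nzE {N : ℕ} (a : Fin N → Fin N → ℝ) (u v : Fin N) : Prop := a u v ≠ 0

/-- Nonzero colour entries. -/
def nzC {N M : ℕ} (b : Fin N → Fin M → ℝ) (u : Fin N) (c : Fin M) : Prop := b u c ≠ 0

/-- Light pairs in colour links. -/
def L1 {N M : ℕ} (H : Fin N → Fin N → Fin M → Prop) (TC : Fin N → Fin M → Prop) (α : ℝ)
    (u v : Fin N) (c : Fin M) : Prop := H u v c ∧ TC u c ∧ TC v c ∧ ¬ HC TC α c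

/-- Light pairs in vertex links. -/
def L2 {N M : ℕ} (H : Fin N → Fin N → Fin M → Prop) (TE : Fin N → Fin N → Prop)
    (TC : Fin N → Fin M → Prop) (α : ℝ) (u v : Fin N) (c : Fin M) : Prop :=
  H u v c ∧ TE u v ∧ TC u c ∧ ¬ HU TE TC α u

/-- Triples with a heavy vertex and a heavy colour. -/
def L3 {N M : ℕ} (H : Fin N → Fin N → Fin M → Prop) (TE : Fin N → Fin N → Prop)
    (TC : Fin N → Fin M → Prop) (α : ℝ) (u v : Fin N) (c : Fin M) : Prop :=
  H u v c ∧ HU TE TC α u ∧ HC TC α c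

/-- Triples with two heavy vertices. -/
def L4 {N M : ℕ} (H : Fin N → Fin N → Fin M → Prop) (TE : Fin N → Fin N → Prop)
    (TC : Fin N → Fin M → Prop) (α : ℝ) (u v : Fin N) (c : Fin M) : Prop :=
  H u v c ∧ HU TE TC α u ∧ HU TE TC α v

/-- The first approximation of the fractional colouring. -/
noncomputable def w0 {N M : ℕ} (H : Fin N → Fin N → Fin M → Prop) (RE : Fin N → Fin N → Prop)
    (RC : Fin N → Fin M → Prop) (D : ℝ) (u v : Fin N) (c : Fin M) : ℝ :=
  if Good H RE RC u v c then D ^ 3 / (dE H u v * dC H u c * dC H v c) else 0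

/-- Edges of the complete graph on `Fin N`. -/
abbrev Edg (N : ℕ) := {e : Sym2 (Fin N) // ¬ e.IsDiag}

/-- Pairs (colour, edge). -/
abbrev Idx (N M : ℕ) := Fin M × Edg N

/-- The list system of a configuration: `c` is in the list of `uv`. -/
def HH {N M : ℕ} (ω : Idx N M → Bool) (u v : Fin N) (c : Fin M) : Prop :=
  ∃ h : u ≠ v, ω (c, ⟨s(u, v), by simpa using h⟩) = true

/-- Perfect fractional list edge colouring of `K_{2n}` with all weights in `[lo, hi]`. -/
def FracCol (n : ℕ) (ω : Idx (2 * n) (2 * n - 1) → Bool) (lo hi : ℝ) : Prop :=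
  ∃ w : Edg (2 * n) → Fin (2 * n - 1) → ℝ,
    (∀ e c, ω (c, e) = false → w e c = 0) ∧
    (∀ e c, ω (c, e) = true → lo ≤ w e c ∧ w e c ≤ hi) ∧
    (∀ e, ∑ c, w e c = 1) ∧
    (∀ v c, (∑ e : Edg (2 * n), if v ∈ e.1 then w e c else 0) = 1)

theorem hh_symm {N M : ℕ} (ω : Idx N M → Bool) (u v : Fin N) (c : Fin M) (h : HH ω u v c) :
    HH ω v u c := by
  obtain ⟨h1, h2⟩ := h
  refine ⟨h1.symm, ?_⟩
  rw [← h2]
  congr 2
  exact Subtype.ext Sym2.eq_swap

theorem hh_irr {N M : ℕ} (ω : Idx N M → Bool) (u : Fin N) (c : Fin M) : ¬ HH ω u u c :=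
  fun ⟨h, _⟩ => h rfl

end Pool.Agent.FR
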