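import Mathlib

/-!
Project FR (MP_dcb6ed_co, MP_6d56f7_co), module Duality.
-/

set_option autoImplicit false

namespace Pool.Agent.FR

open Finset Classical

theorem duality {X Y : Type} [Fintype X] [Fintype Y] (m : Y → X → ℝ) (ρ : X → ℝ) (β : Y → ℝ)
    (hβ : ∀ h, 0 ≤ β h)
    (h : ∀ y : X → ℝ, ∑ x, ρ x * y x ≤ ∑ h, β h * |∑ x, m h x * y x|) :
    ∃ u : Y → ℝ, (∀ h, |u h| ≤ β h) ∧ ∀ x, ∑ h, m h x * u h = ρ x := by
  let A : (Y → ℝ) → (X → ℝ) := fun u x => ∑ h, m h x * u h
  have hA : Continuous A := by
    refine continuous_pi fun x => ?_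
    exact continuous_finsetSum _ fun h _ => continuous_const.mul (continuous_apply h)
  have hKc : IsCompact (A '' Set.Icc (fun h => -β h) β) := isCompact_Icc.image hA
  have hKv : Convex ℝ (A '' Set.Icc (fun h => -β h) β) := by
    rintro _ ⟨u, hu, rfl⟩ _ ⟨v, hv, rfl⟩ a b ha hb hab
    refine ⟨a • u + b • v, (convex_Icc _ _) hu hv ha hb hab, ?_⟩
    funext x
    simp only [A, Pi.add_apply, Pi.smul_apply, smul_eq_mul]
    rw [Finset.mul_sum, Finset.mul_sum, ← Finset.sum_add_distrib]
    exact Finset.sum_congr rfl fun h _ => by ring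
  by_cases hρ : ρ ∈ A '' Set.Icc (fun h => -β h) β
  · obtain ⟨u, hu, hu2⟩ := hρ
    refine ⟨u, fun h => abs_le.2 ⟨hu.1 h, hu.2 h⟩, fun x => ?_⟩
    rw [← hu2]
  · exfalso
    obtain ⟨f, s, hf1, hf2⟩ := geometric_hahn_banach_closed_point hKv hKc.isClosed hρ
    have hf : ∀ z : X → ℝ, f z = ∑ x, z x * f (Pi.single x 1) := by
      intro z
      have h1 : z = ∑ x, z x • (Pi.single x (1 : ℝ) : X → ℝ) := by
        funext x
        rw [Finset.sum_apply, Finset.sum_eq_single x]
        · simp
        · intro b _ hb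
          simp [Ne.symm hb]
        · intro hx
          exact absurd (Finset.mem_univ x) hx
      conv_lhs => rw [h1]
      rw [map_sum]
      exact Finset.sum_congr rfl fun x _ => by rw [map_smul, smul_eq_mul]
    let y : X → ℝ := fun x => f (Pi.single x 1)
    let u : Y → ℝ := fun h => if 0 ≤ ∑ x, m h x * y x then β h else -β h
    have hu : u ∈ Set.Icc (fun h => -β h) β := by
      constructor <;> intro h <;> simp only [u] <;> split_ifs <;> linarith [hβ h]
    have h1 := hf1 (A u) ⟨u, hu, rfl⟩
    have h2 : f (A u) = ∑ h, β h * |∑ x, m h x * y x| := by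
      rw [hf]
      simp only [A]
      calc ∑ x, (∑ h, m h x * u h) * f (Pi.single x 1)
          = ∑ x, ∑ h, u h * (m h x * y x) := by
            refine Finset.sum_congr rfl fun x _ => ?_
            rw [Finset.sum_mul]
            exact Finset.sum_congr rfl fun h _ => by simp only [y]; ring
        _ = ∑ h, ∑ x, u h * (m h x * y x) := Finset.sum_comm
        _ = ∑ h, β h * |∑ x, m h x * y x| := by
            refine Finset.sum_congr rfl fun h _ => ?_
            rw [← Finset.mul_sum]
            simp only [u]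
            split_ifs with h0
            · rw [abs_of_nonneg h0]
            · rw [abs_of_neg (not_le.1 h0)]
              ring
    have h3 := h y
    have h4 : f ρ = ∑ x, ρ x * y x := hf ρ
    linarith

end Pool.Agent.FR
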