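import Mathlib
import Pool.Agent.Lib.MP_dcb6ed_co.Defs

/-!
# Project FR: from symmetric weights on the triples to a perfect fractional colouring
-/

set_option autoImplicit false

namespace Pool.Agent.FR

open Finset Classical

/-- the sum over the edges at a vertex -/
private theorem FracOf.sum_edges {N : ℕ} (f : Sym2 (Fin N) → ℝ) (v : Fin N) (hf : f s(v, v) = 0) :
    (∑ e : Edg N, if v ∈ e.1 then f e.1 else 0) = ∑ u, f s(v, u) := by
  have h1 : ∑ u, f s(v, u) = ∑ u ∈ univ.filter (fun u : Fin N => v ≠ u), f s(v, u) := by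
    rw [Finset.sum_filter]
    apply Finset.sum_congr rfl
    intro u _
    by_cases h : v = u
    · subst h
      simp [hf]
    · rw [if_pos h]
  rw [h1, ← Finset.sum_filter]
  symm
  refine Finset.sum_bij (fun u hu => (⟨s(v, u), by simpa using (Finset.mem_filter.1 hu).2⟩ : Edg N))
    ?_ ?_ ?_ ?_
  · intro u hu
    simp
  · intro u hu u' hu' h
    exact Sym2.congr_right.1 (congrArg Subtype.val h)
  · intro e he
    obtain ⟨u, hu⟩ := Sym2.mem_iff_exists.1 (Finset.mem_filter.1 he).2
    have h3 : v ≠ u := by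
      have h4 := e.2
      rw [hu] at h4
      simpa using h4
    exact ⟨u, by simp [h3], Subtype.ext hu.symm⟩
  · intro u hu
    rfl

theorem frac_of_w (n : ℕ) (ω : Idx (2 * n) (2 * n - 1) → Bool) (lo hi : ℝ)
    (w : Fin (2 * n) → Fin (2 * n) → Fin (2 * n - 1) → ℝ)
    (h1 : ∀ u v c, w u v c = w v u c) (h2 : ∀ u v c, ¬ HH ω u v c → w u v c = 0)
    (h3 : ∀ u v c, HH ω u v c → lo ≤ w u v c ∧ w u v c ≤ hi)
    (h4 : ∀ u v, u ≠ v → ∑ c, w u v c = 1) (h5 : ∀ u c, ∑ v, w u v c = 1) :
    FracCol n ω lo hi := by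
  have hHH : ∀ (u v : Fin (2 * n)) (h : ¬ (s(u, v) : Sym2 (Fin (2 * n))).IsDiag)
      (c : Fin (2 * n - 1)), HH ω u v c ↔ ω (c, ⟨s(u, v), h⟩) = true := by
    intro u v h c
    constructor
    · rintro ⟨_, h'⟩
      exact h'
    · intro h'
      exact ⟨by simpa using h, h'⟩
  refine ⟨fun e c => Sym2.lift ⟨fun u v => w u v c, fun u v => h1 u v c⟩ e.1, ?_, ?_, ?_, ?_⟩
  · rintro ⟨e, he⟩ c
    induction e using Sym2.inductionOn with
    | hf u v =>
      intro h
      apply h2
      rw [hHH u v he c, h]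
      simp
  · rintro ⟨e, he⟩ c
    induction e using Sym2.inductionOn with
    | hf u v =>
      intro h
      exact h3 u v c ((hHH u v he c).2 h)
  · rintro ⟨e, he⟩
    induction e using Sym2.inductionOn with
    | hf u v =>
      exact h4 u v (by simpa using he)
  · intro v c
    rw [FracOf.sum_edges (fun s => Sym2.lift ⟨fun u v => w u v c, fun u v => h1 u v c⟩ s) v
      (h2 v v c (hh_irr ω v c))]
    exact h5 v c

end Pool.Agent.FR
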