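import Pool.Agent.Lib.MP_dcb6ed_co.Defs

/-! Project FR, module Layer: the layer cake inequality. -/

set_option autoImplicit false

namespace Pool.Agent.FR

open Finset Classical

namespace Layer

open MeasureTheory

/-- `f` is integrable on the positive half line with integral `v`. -/
def HI (f : ℝ → ℝ) (v : ℝ) : Prop :=
  IntegrableOn f (Set.Ioi 0) ∧ ∫ θ in Set.Ioi (0 : ℝ), f θ = v

theorem HI.add {f g : ℝ → ℝ} {v w : ℝ} (hf : HI f v) (hg : HI g w) :
    HI (fun θ => f θ + g θ) (v + w) := by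
  refine ⟨hf.1.add hg.1, ?_⟩
  rw [integral_add hf.1 hg.1, hf.2, hg.2]

theorem HI.sub {f g : ℝ → ℝ} {v w : ℝ} (hf : HI f v) (hg : HI g w) :
    HI (fun θ => f θ - g θ) (v - w) := by
  refine ⟨hf.1.sub hg.1, ?_⟩
  rw [integral_sub hf.1 hg.1, hf.2, hg.2]

theorem HI.mul {f : ℝ → ℝ} {v : ℝ} (k : ℝ) (hf : HI f v) :
    HI (fun θ => k * f θ) (k * v) := by
  refine ⟨hf.1.const_mul k, ?_⟩
  rw [integral_const_mul, hf.2]

theorem HI.sum {ι : Type} (s : Finset ι) {f : ι → ℝ → ℝ} {v : ι → ℝ}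
    (hf : ∀ i ∈ s, HI (f i) (v i)) :
    HI (fun θ => ∑ i ∈ s, f i θ) (∑ i ∈ s, v i) := by
  refine ⟨integrable_finsetSum s fun i hi => (hf i hi).1, ?_⟩
  rw [integral_finsetSum s fun i hi => (hf i hi).1]
  exact Finset.sum_congr rfl fun i hi => (hf i hi).2

theorem HI.zero : HI (fun _ => (0 : ℝ)) 0 := by
  refine ⟨integrable_zero _ _ _, ?_⟩
  simp

theorem HI.ind (s r : ℝ) (hs : 0 < s) (hr : 0 ≤ r) :
    HI (fun θ => if s * θ ≤ r then (1 : ℝ) else 0) (r / s) := by
  have e : (Set.Ioi (0 : ℝ)).indicator (fun θ => if s * θ ≤ r then (1 : ℝ) else 0) =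
      (Set.Ioc 0 (r / s)).indicator (fun _ => (1 : ℝ)) := by
    ext θ
    by_cases h0 : 0 < θ
    · by_cases h1 : s * θ ≤ r
      · have h2 : θ ≤ r / s := by
          rw [le_div_iff₀ hs]; linarith
        simp [Set.indicator, h0, h1, h2]
      · have h2 : ¬ θ ≤ r / s := by
          rw [le_div_iff₀ hs]; intro h; apply h1; linarith
        simp [Set.indicator, h0, h1, h2]
    · simp [Set.indicator, h0]
  constructor
  · rw [← integrable_indicator_iff measurableSet_Ioi, e,
      integrable_indicator_iff measurableSet_Ioc]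
    exact integrableOn_const (by simp)
  · rw [← integral_indicator measurableSet_Ioi, e, integral_indicator measurableSet_Ioc]
    simp only [integral_const, MeasurableSet.univ, measureReal_restrict_apply, Set.univ_inter,
      smul_eq_mul, mul_one]
    rw [Real.volume_real_Ioc_of_le (by positivity)]
    ring

theorem HI.congr {f g : ℝ → ℝ} {v : ℝ} (hf : HI f v) (h : ∀ θ, 0 < θ → f θ = g θ) : HI g v := by
  refine ⟨hf.1.congr_fun (fun θ hθ => h θ hθ) measurableSet_Ioi, ?_⟩
  rw [← hf.2]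
  exact (setIntegral_congr_fun measurableSet_Ioi fun θ hθ => h θ hθ).symm

theorem HI.le {f g : ℝ → ℝ} {v w : ℝ} (hf : HI f v) (hg : HI g w)
    (h : ∀ θ, 0 < θ → f θ ≤ g θ) : v ≤ w := by
  rw [← hf.2, ← hg.2]
  exact setIntegral_mono_on hf.1 hg.1 measurableSet_Ioi fun θ hθ => h θ hθ

theorem HI.abs (s x : ℝ) (hs : 0 < s) :
    HI (fun θ => if s ≤ |x / θ| then (1 : ℝ) else 0) (|x| / s) := by
  refine (HI.ind s |x| hs (abs_nonneg x)).congr fun θ hθ => ?_
  have : (s * θ ≤ |x|) ↔ (s ≤ |x / θ|) := by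
    rw [abs_div, abs_of_pos hθ, le_div_iff₀ hθ]
  simp only [this]

theorem HI.sz {N M : ℕ} (a : Fin N → Fin N → ℝ) (b : Fin N → Fin M → ℝ) (s : ℝ) (hs : 0 < s) :
    HI (fun θ => FR.sz (fun u v => a u v / θ) (fun u c => b u c / θ) s) (nrm a b / s) := by
  have h1 : HI (fun θ => ∑ u, ∑ v, if s ≤ |a u v / θ| then (1 : ℝ) else 0)
      (∑ u, ∑ v, |a u v| / s) :=
    HI.sum _ fun u _ => HI.sum _ fun v _ => HI.abs s (a u v) hs
  have h2 : HI (fun θ => ∑ u, ∑ c, if s ≤ |b u c / θ| then (1 : ℝ) else 0)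
      (∑ u, ∑ c, |b u c| / s) :=
    HI.sum _ fun u _ => HI.sum _ fun c _ => HI.abs s (b u c) hs
  have h3 := h1.add (h2.mul 2)
  have e : nrm a b / s = (∑ u, ∑ v, |a u v| / s) + 2 * ∑ u, ∑ c, |b u c| / s := by
    simp only [← Finset.sum_div]
    rw [nrm]; ring
  rw [e]
  exact h3

end Layer

/-- Layer cake. -/
theorem layer {N M : ℕ} (H : Fin N → Fin N → Fin M → Prop) (RE : Fin N → Fin N → Prop)
    (RC : Fin N → Fin M → Prop) (q K : ℝ) (hq : 0 ≤ q) (hK : 1 ≤ K)
    (h : ∀ (a : Fin N → Fin N → ℝ) (b : Fin N → Fin M → ℝ), Adm RE RC a b →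
      q * (sz a b 1 - 1 / 256 * sz a b (1 / 64) - K / 4 * sz a b K) ≤
        n3 (fun (u v : Fin N) (c : Fin M) => Good H RE RC u v c ∧ 1 / 16 ≤ |val a b u v c|))
    (a : Fin N → Fin N → ℝ) (b : Fin N → Fin M → ℝ) (hA : Adm RE RC a b) :
    q / 32 * nrm a b ≤
      ∑ u, ∑ v, ∑ c, if Good H RE RC u v c then |val a b u v c| else 0 := by
  have hK0 : 0 < K := by linarith
  -- scaled functions are admissible
  have hAdm : ∀ θ : ℝ, 0 < θ → Adm RE RC (fun u v => a u v / θ) (fun u c => b u c / θ) := by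
    intro θ hθ
    refine ⟨fun u v => by rw [hA.symm u v], fun u => by rw [hA.diag u]; simp,
      fun u v huv => by rw [hA.offE u v huv]; simp, fun u c huc => by rw [hA.offC u c huc]; simp,
      fun u => ?_⟩
    have hm := hA.med u
    have e1 : ∀ c, (0 ≤ b u c / θ) ↔ (0 ≤ b u c) := by
      intro c
      rw [le_div_iff₀ hθ, zero_mul]
    have e2 : ∀ c, (b u c / θ ≤ 0) ↔ (b u c ≤ 0) := by
      intro c
      rw [div_le_iff₀ hθ, zero_mul]
    unfold MedZero at hm ⊢
    simp only [e1, e2]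
    exact hm
  have hL : Layer.HI (fun θ => q * (sz (fun u v => a u v / θ) (fun u c => b u c / θ) 1
      - 1 / 256 * sz (fun u v => a u v / θ) (fun u c => b u c / θ) (1 / 64)
      - K / 4 * sz (fun u v => a u v / θ) (fun u c => b u c / θ) K))
      (q * (nrm a b / 1 - 1 / 256 * (nrm a b / (1 / 64)) - K / 4 * (nrm a b / K))) :=
    Layer.HI.mul q (((Layer.HI.sz a b 1 one_pos).sub
      ((Layer.HI.sz a b (1 / 64) (by norm_num)).mul (1 / 256))).sub
      ((Layer.HI.sz a b K hK0).mul (K / 4)))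
  have hR : Layer.HI (fun θ => n3 (fun (u v : Fin N) (c : Fin M) => Good H RE RC u v c ∧
      1 / 16 ≤ |val (fun u v => a u v / θ) (fun u c => b u c / θ) u v c|))
      (∑ u, ∑ v, ∑ c, if Good H RE RC u v c then |val a b u v c| / (1 / 16) else 0) := by
    unfold n3
    refine Layer.HI.sum _ fun u _ => Layer.HI.sum _ fun v _ => Layer.HI.sum _ fun c _ => ?_
    by_cases hg : Good H RE RC u v c
    · simp only [hg, true_and, if_true]
      refine (Layer.HI.abs (1 / 16) (val a b u v c) (by norm_num)).congr fun θ hθ => ?_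
      have e : val a b u v c / θ = val (fun u v => a u v / θ) (fun u c => b u c / θ) u v c := by
        unfold val; ring
      rw [e]
    · simp only [hg, false_and, if_false]
      exact Layer.HI.zero
  have hle := hL.le hR fun θ hθ => h _ _ (hAdm θ hθ)
  have e1 : q * (nrm a b / 1 - 1 / 256 * (nrm a b / (1 / 64)) - K / 4 * (nrm a b / K)) =
      q / 2 * nrm a b := by
    field_simp
    ring
  have e2 : (∑ u, ∑ v, ∑ c, if Good H RE RC u v c then |val a b u v c| / (1 / 16) else 0) =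
      16 * ∑ u, ∑ v, ∑ c, if Good H RE RC u v c then |val a b u v c| else 0 := by
    simp only [Finset.mul_sum]
    refine Finset.sum_congr rfl fun u _ => Finset.sum_congr rfl fun v _ =>
      Finset.sum_congr rfl fun c _ => ?_
    split_ifs <;> ring
  rw [e1, e2] at hle
  linarith

end Pool.Agent.FR
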