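import Pool.Agent.Lib.MP_dcb6ed_co.Defs

/-!
Project FR: light triples (`light`).
-/

set_option autoImplicit false

namespace Pool.Agent.FR

open Finset Classical

namespace Light

theorem card_eq {α : Type} [Fintype α] (P : α → Prop) :
    ((univ.filter P).card : ℝ) = ∑ x, if P x then (1 : ℝ) else 0 := by
  rw [Finset.sum_ite, Finset.sum_const_zero, add_zero, Finset.sum_const, nsmul_eq_mul, mul_one]

theorem eB_filter {α β : Type} [Fintype α] [Fintype β] (B : α → β → Prop) (P : α → Prop)
    (Q : β → Prop) :
    eB B (univ.filter P) (univ.filter Q) = ∑ x, ∑ y, if P x ∧ Q y ∧ B x y then (1 : ℝ) else 0 := by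
  unfold eB
  rw [Finset.sum_filter]
  apply Finset.sum_congr rfl
  intro x _
  by_cases hx : P x
  · rw [if_pos hx, Finset.sum_filter]
    apply Finset.sum_congr rfl
    intro y _
    by_cases hy : Q y
    · by_cases hB : B x y
      · rw [if_pos hy, if_pos hB, if_pos ⟨hx, hy, hB⟩]
      · rw [if_pos hy, if_neg hB, if_neg (fun h => hB h.2.2)]
    · rw [if_neg hy, if_neg (fun h => hy h.2.1)]
  · rw [if_neg hx]
    symm
    apply Finset.sum_eq_zero
    intro y _
    rw [if_neg (fun h => hx h.1)]

theorem eB_univ {α β : Type} [Fintype α] [Fintype β] (B : α → β → Prop) (P : α → Prop) :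
    eB B (univ.filter P) univ = ∑ x, ∑ y, if P x ∧ B x y then (1 : ℝ) else 0 := by
  unfold eB
  rw [Finset.sum_filter]
  apply Finset.sum_congr rfl
  intro x _
  by_cases hx : P x
  · rw [if_pos hx]
    apply Finset.sum_congr rfl
    intro y _
    by_cases hB : B x y
    · rw [if_pos hB, if_pos ⟨hx, hB⟩]
    · rw [if_neg hB, if_neg (fun h => hB h.2)]
  · rw [if_neg hx]
    symm
    apply Finset.sum_eq_zero
    intro y _
    rw [if_neg (fun h => hx h.1)]

theorem eB_le {α β : Type} {B : α → β → Prop} {p D η η0 : ℝ} (h : WD B p D η) (hη : η ≤ η0)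
    (hD : 0 ≤ D) (F : Finset α) (G : Finset β) :
    eB B F G ≤ p * F.card * G.card + η0 * D * max (F.card : ℝ) (G.card : ℝ) := by
  have h1 := (abs_le.1 (h F G)).2
  have h2 : η * D * max (F.card : ℝ) (G.card : ℝ) ≤ η0 * D * max (F.card : ℝ) (G.card : ℝ) := by
    apply mul_le_mul_of_nonneg_right _ (le_max_of_le_left (Nat.cast_nonneg _))
    exact mul_le_mul_of_nonneg_right hη hD
  linarith

theorem n3_c {N M : ℕ} (P : Fin N → Fin N → Fin M → Prop) :
    n3 P = ∑ c, ∑ u, ∑ v, if P u v c then (1 : ℝ) else 0 := by
  unfold n3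
  rw [Finset.sum_comm]
  have h : ∀ v : Fin N, ∑ u : Fin N, ∑ c : Fin M, (if P u v c then (1 : ℝ) else 0) =
      ∑ c : Fin M, ∑ u : Fin N, if P u v c then (1 : ℝ) else 0 := fun v => Finset.sum_comm
  rw [Finset.sum_congr rfl (fun v _ => h v), Finset.sum_comm]
  apply Finset.sum_congr rfl
  intro c _
  rw [Finset.sum_comm]

theorem ind_nonneg (P : Prop) : (0:ℝ) ≤ if P then (1 : ℝ) else 0 := by
  split_ifs <;> norm_num

end Light

open Light in
theorem light (β : ℝ) (hβ : 0 < β) :
    ∃ α : ℝ, 0 < α ∧ ∃ ξ : ℝ, 0 < ξ ∧ ∃ η0 : ℝ, 0 < η0 ∧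
      ∀ (N M : ℕ) (H : Fin N → Fin N → Fin M → Prop) (p η : ℝ) (TE : Fin N → Fin N → Prop)
        (TC : Fin N → Fin M → Prop), 0 < M → η ≤ η0 → Rnd N M H p η →
        (∀ u v, TE u v → TE v u) → tot TE TC ≤ ξ * N ^ 2 →
        n3 (L1 H TC α) ≤ β * (p * M) * tot TE TC ∧
        n3 (L2 H TE TC α) ≤ β * (p * M) * tot TE TC ∧
        n3 (L3 H TE TC α) ≤ β * (p * M) * tot TE TC ∧
        n3 (L4 H TE TC α) ≤ β * (p * M) * tot TE TC := by
  set α : ℝ := β / 4 with hα
  have hα0 : 0 < α := by positivity
  set ξ : ℝ := α ^ 2 * β / 4 with hξ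
  have hξ0 : 0 < ξ := by positivity
  set η0 : ℝ := min (β / 2) (α * β / 2) with hη0
  have hη00 : 0 < η0 := lt_min (by positivity) (by positivity)
  have hη1 : η0 ≤ β / 2 := min_le_left _ _
  have hη2 : η0 ≤ α * β / 2 := min_le_right _ _
  refine ⟨α, hα0, ξ, hξ0, η0, hη00, ?_⟩
  intro N M H p η TE TC hM hη hR hsymm htot
  have hM1 : (1:ℝ) ≤ M := by exact_mod_cast hM
  have hNM : (N : ℝ) = M + 1 := by
    have := hR.hNM
    rw [this]; push_cast; ring
  have hN0 : (0:ℝ) < N := by linarith
  have hp := hR.p0
  set D := p * (M : ℝ) with hD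
  have hD0 : 0 < D := by positivity
  have hpN : p * N ≤ 2 * D := by
    rw [hNM, hD]; nlinarith
  set s := tot TE TC with hs
  -- sizes
  set t : Fin N → ℝ := fun u => (∑ v, if TE u v then (1 : ℝ) else 0) +
    ∑ c, if TC u c then (1 : ℝ) else 0 with ht
  set q : Fin M → ℝ := fun c => ∑ u, if TC u c then (1 : ℝ) else 0 with hq
  have ht0 : ∀ u, 0 ≤ t u := fun u => add_nonneg
    (Finset.sum_nonneg fun _ _ => ind_nonneg _) (Finset.sum_nonneg fun _ _ => ind_nonneg _)
  have hq0 : ∀ c, 0 ≤ q c := fun c => Finset.sum_nonneg fun _ _ => ind_nonneg _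
  have hTC0 : 0 ≤ ∑ u, ∑ c, if TC u c then (1 : ℝ) else 0 :=
    Finset.sum_nonneg fun _ _ => Finset.sum_nonneg fun _ _ => ind_nonneg _
  have hTE0 : 0 ≤ ∑ u, ∑ v, if TE u v then (1 : ℝ) else 0 :=
    Finset.sum_nonneg fun _ _ => Finset.sum_nonneg fun _ _ => ind_nonneg _
  have hsum_t : ∑ u, t u ≤ s := by
    rw [ht, hs]
    unfold tot
    rw [Finset.sum_add_distrib]
    linarith
  have hsum_q : 2 * ∑ c, q c ≤ s := by
    rw [hq, hs]
    unfold tot
    simp only
    rw [Finset.sum_comm]
    linarith
  have hs0 : 0 ≤ s := le_trans (Finset.sum_nonneg fun u _ => ht0 u) hsum_t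
  -- heavy sets
  set U0 := univ.filter (fun u : Fin N => HU TE TC α u) with hU0
  set C0 := univ.filter (fun c : Fin M => HC TC α c) with hC0
  have hU : (U0.card : ℝ) * (α * N) ≤ s := by
    refine le_trans ?_ hsum_t
    rw [card_eq, Finset.sum_mul]
    apply Finset.sum_le_sum
    intro u _
    by_cases h : HU TE TC α u
    · rw [if_pos h, one_mul]
      exact h
    · rw [if_neg h, zero_mul]
      exact ht0 u
  have hC : 2 * ((C0.card : ℝ) * (α * N)) ≤ s := by
    refine le_trans ?_ hsum_q
    apply mul_le_mul_of_nonneg_left _ (by norm_num)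
    rw [card_eq, Finset.sum_mul]
    apply Finset.sum_le_sum
    intro c _
    by_cases h : HC TC α c
    · rw [if_pos h, one_mul]
      exact h
    · rw [if_neg h, zero_mul]
      exact hq0 c
  have hU' : (U0.card : ℝ) * α ≤ ξ * N := by
    have h1 : (U0.card : ℝ) * α * N ≤ ξ * N * N := by
      have := le_trans hU htot
      nlinarith
    exact le_of_mul_le_mul_right h1 hN0
  have hUN : (U0.card : ℝ) ≤ N := by
    have := Finset.card_le_univ U0
    rw [Fintype.card_fin] at this
    exact_mod_cast this
  have h2α : 2 * α + η0 ≤ β := by rw [hα]; linarith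
  refine ⟨?_, ?_, ?_, ?_⟩
  · -- L1
    rw [n3_c]
    have hc : ∀ c, ∑ u, ∑ v, (if L1 H TC α u v c then (1 : ℝ) else 0) ≤ (β * D) * (2 * q c) := by
      intro c
      by_cases h : HC TC α c
      · have : ∑ u, ∑ v, (if L1 H TC α u v c then (1 : ℝ) else 0) = 0 := by
          apply Finset.sum_eq_zero; intro u _
          apply Finset.sum_eq_zero; intro v _
          rw [if_neg (fun h' => h'.2.2.2 h)]
        rw [this]
        have := hq0 c
        positivity
      · have e1 : ∑ u, ∑ v, (if L1 H TC α u v c then (1 : ℝ) else 0) =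
            eB (fun u v => H u v c) (univ.filter fun u => TC u c) (univ.filter fun v => TC v c) := by
          rw [eB_filter]
          apply Finset.sum_congr rfl; intro u _
          apply Finset.sum_congr rfl; intro v _
          apply if_congr _ rfl rfl
          unfold L1
          tauto
        rw [e1]
        refine le_trans (eB_le (hR.wdc c) hη hD0.le _ _) ?_
        rw [max_self, card_eq]
        have e2 : (∑ u, if TC u c then (1 : ℝ) else 0) = q c := rfl
        rw [e2]
        have e3 : q c < α * N := not_le.1 h
        have e4 : p * q c * q c ≤ 2 * α * D * q c := by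
          have := hq0 c
          have f1 : p * q c ≤ p * (α * N) := mul_le_mul_of_nonneg_left e3.le hp.le
          have f2 : p * (α * N) ≤ 2 * α * D := by
            have := mul_le_mul_of_nonneg_left hpN hα0.le
            linarith
          exact mul_le_mul_of_nonneg_right (le_trans f1 f2) this
        have e5 : (2 * α + η0) * (D * q c) ≤ β * (D * q c) :=
          mul_le_mul_of_nonneg_right h2α (mul_nonneg hD0.le (hq0 c))
        have e6 : 0 ≤ β * (D * q c) := mul_nonneg hβ.le (mul_nonneg hD0.le (hq0 c))
        nlinarith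
    refine le_trans (Finset.sum_le_sum fun c _ => hc c) ?_
    rw [← Finset.mul_sum, ← Finset.mul_sum]
    exact mul_le_mul_of_nonneg_left hsum_q (by positivity)
  · -- L2
    unfold n3
    have hu : ∀ u, ∑ v, ∑ c, (if L2 H TE TC α u v c then (1 : ℝ) else 0) ≤ (β * D) * t u := by
      intro u
      by_cases h : HU TE TC α u
      · have : ∑ v, ∑ c, (if L2 H TE TC α u v c then (1 : ℝ) else 0) = 0 := by
          apply Finset.sum_eq_zero; intro v _
          apply Finset.sum_eq_zero; intro c _
          rw [if_neg (fun h' => h'.2.2.2 h)]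
        rw [this]
        have := ht0 u
        positivity
      · have e1 : ∑ v, ∑ c, (if L2 H TE TC α u v c then (1 : ℝ) else 0) =
            eB (fun v c => H u v c) (univ.filter fun v => TE u v) (univ.filter fun c => TC u c) := by
          rw [eB_filter]
          apply Finset.sum_congr rfl; intro v _
          apply Finset.sum_congr rfl; intro c _
          apply if_congr _ rfl rfl
          unfold L2
          tauto
        rw [e1]
        refine le_trans (eB_le (hR.wdv u) hη hD0.le _ _) ?_
        rw [card_eq, card_eq]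
        set x := ∑ v, if TE u v then (1 : ℝ) else 0 with hx
        set y := ∑ c, if TC u c then (1 : ℝ) else 0 with hy
        have hx0 : 0 ≤ x := Finset.sum_nonneg fun _ _ => ind_nonneg _
        have hy0 : 0 ≤ y := Finset.sum_nonneg fun _ _ => ind_nonneg _
        have e2 : t u = x + y := rfl
        rw [e2]
        have e3 : x + y < α * N := not_le.1 h
        have e4 : p * x * y ≤ 2 * α * D * y := by
          have f1 : p * x ≤ p * (α * N) := mul_le_mul_of_nonneg_left (by linarith) hp.le
          have f2 : p * (α * N) ≤ 2 * α * D := by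
            have := mul_le_mul_of_nonneg_left hpN hα0.le
            linarith
          exact mul_le_mul_of_nonneg_right (le_trans f1 f2) hy0
        have e5 : max x y ≤ x + y := max_le (by linarith) (by linarith)
        have e6 : η0 * D * max x y ≤ η0 * D * (x + y) :=
          mul_le_mul_of_nonneg_left e5 (by positivity)
        have e7 : (2 * α + η0) * (D * (x + y)) ≤ β * (D * (x + y)) :=
          mul_le_mul_of_nonneg_right h2α (by positivity)
        have e8 : 0 ≤ 2 * α * D * x := by positivity
        nlinarith
    refine le_trans (Finset.sum_le_sum fun u _ => hu u) ?_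
    rw [← Finset.mul_sum]
    exact mul_le_mul_of_nonneg_left hsum_t (by positivity)
  · -- L3
    rw [n3_c]
    have hc : ∀ c, ∑ u, ∑ v, (if L3 H TE TC α u v c then (1 : ℝ) else 0) ≤
        (if HC TC α c then (1:ℝ) else 0) * (2 * (α * β) * D * N) := by
      intro c
      by_cases h : HC TC α c
      · rw [if_pos h, one_mul]
        have e1 : ∑ u, ∑ v, (if L3 H TE TC α u v c then (1 : ℝ) else 0) =
            eB (fun u v => H u v c) U0 univ := by
          rw [hU0, eB_univ]
          apply Finset.sum_congr rfl; intro u _
          apply Finset.sum_congr rfl; intro v _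
          apply if_congr _ rfl rfl
          unfold L3
          tauto
        rw [e1]
        refine le_trans (eB_le (hR.wdc c) hη hD0.le _ _) ?_
        have e2 : ((univ : Finset (Fin N)).card : ℝ) = N := by
          rw [Finset.card_univ, Fintype.card_fin]
        rw [e2, max_eq_right hUN]
        have e3 : p * U0.card * N ≤ α * β / 2 * D * N := by
          apply mul_le_mul_of_nonneg_right _ hN0.le
          have f1 : p * U0.card * α ≤ α * β / 2 * D * α := by
            have g1 := mul_le_mul_of_nonneg_left hU' hp.le
            have g2 : p * (ξ * N) ≤ 2 * ξ * D := by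
              have := mul_le_mul_of_nonneg_left hpN hξ0.le
              linarith
            have g3 : 2 * ξ * D = α * β / 2 * D * α := by rw [hξ]; ring
            linarith
          exact le_of_mul_le_mul_right f1 hα0
        have e4 : η0 * D * N ≤ α * β / 2 * D * N := by
          apply mul_le_mul_of_nonneg_right _ hN0.le
          exact mul_le_mul_of_nonneg_right hη2 hD0.le
        have e5 : 0 ≤ α * β * D * N := by positivity
        linarith
      · rw [if_neg h, zero_mul]
        apply le_of_eq
        apply Finset.sum_eq_zero; intro u _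
        apply Finset.sum_eq_zero; intro v _
        rw [if_neg (fun h' => h h'.2.2)]
    refine le_trans (Finset.sum_le_sum fun c _ => hc c) ?_
    rw [← Finset.sum_mul, ← card_eq]
    have : (C0.card : ℝ) * (2 * (α * β) * D * N) = β * D * (2 * (C0.card * (α * N))) := by ring
    rw [this]
    exact mul_le_mul_of_nonneg_left hC (by positivity)
  · -- L4
    unfold n3
    have hu : ∀ u, ∑ v, ∑ c, (if L4 H TE TC α u v c then (1 : ℝ) else 0) ≤
        (if HU TE TC α u then (1:ℝ) else 0) * ((α * β) * D * N) := by
      intro u
      by_cases h : HU TE TC α u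
      · rw [if_pos h, one_mul]
        have e1 : ∑ v, ∑ c, (if L4 H TE TC α u v c then (1 : ℝ) else 0) =
            eB (fun v c => H u v c) U0 univ := by
          rw [hU0, eB_univ]
          apply Finset.sum_congr rfl; intro v _
          apply Finset.sum_congr rfl; intro c _
          apply if_congr _ rfl rfl
          unfold L4
          tauto
        rw [e1]
        refine le_trans (eB_le (hR.wdv u) hη hD0.le _ _) ?_
        have e2 : ((univ : Finset (Fin M)).card : ℝ) = M := by
          rw [Finset.card_univ, Fintype.card_fin]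
        rw [e2]
        have hMN : (M : ℝ) ≤ N := by linarith
        have e3 : p * U0.card * M ≤ α * β / 4 * D * N := by
          have f1 : (U0.card : ℝ) ≤ α * β / 4 * N := by
            have g3 : ξ * N = α * β / 4 * N * α := by rw [hξ]; ring
            rw [g3] at hU'
            exact le_of_mul_le_mul_right hU' hα0
          have f2 : p * U0.card * M = D * U0.card := by rw [hD]; ring
          rw [f2]
          have := mul_le_mul_of_nonneg_left f1 hD0.le
          linarith
        have e4 : η0 * D * max (U0.card : ℝ) M ≤ α * β / 2 * D * N := by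
          apply mul_le_mul _ (max_le hUN hMN) (by positivity) (by positivity)
          exact mul_le_mul_of_nonneg_right hη2 hD0.le
        have e5 : 0 ≤ α * β * D * N := by positivity
        linarith
      · rw [if_neg h, zero_mul]
        apply le_of_eq
        apply Finset.sum_eq_zero; intro v _
        apply Finset.sum_eq_zero; intro c _
        rw [if_neg (fun h' => h h'.2.1)]
    refine le_trans (Finset.sum_le_sum fun u _ => hu u) ?_
    rw [← Finset.sum_mul, ← card_eq]
    have e : (U0.card : ℝ) * ((α * β) * D * N) = β * D * (U0.card * (α * N)) := by ring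
    have e' : (U0.card : ℝ) * ((α * β) * D * N) ≤ β * D * s := by
      rw [e]
      exact mul_le_mul_of_nonneg_left hU (by positivity)
    exact e'

end Pool.Agent.FR
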