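import Pool.Agent.Lib.MP_dcb6ed_co.Defs

/-!
Project FR (MP_dcb6ed_co, MP_6d56f7_co), module LinkC: the link inequality for a colour.
-/

set_option autoImplicit false

namespace Pool.Agent.FR

open Finset Classical

namespace LinkC

theorem restrict {N : ℕ} (G : Fin N → Fin N → Prop) (g : Fin N → ℝ) (P Q : Finset (Fin N))
    (h : ∀ u ∈ P, ∀ v ∈ Q, 1 / 2 ≤ |g u + g v|) :
    eB G P Q ≤ ∑ u, ∑ v, if G u v ∧ 1 / 2 ≤ |g u + g v| then (1 : ℝ) else 0 := by
  unfold eB
  calc (∑ u ∈ P, ∑ v ∈ Q, if G u v then (1 : ℝ) else 0)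
      ≤ ∑ u ∈ P, ∑ v, if G u v ∧ 1 / 2 ≤ |g u + g v| then (1 : ℝ) else 0 := by
        refine sum_le_sum fun u hu => ?_
        calc (∑ v ∈ Q, if G u v then (1 : ℝ) else 0)
            ≤ ∑ v ∈ Q, if G u v ∧ 1 / 2 ≤ |g u + g v| then (1 : ℝ) else 0 := by
              refine sum_le_sum fun v hv => ?_
              by_cases hG : G u v
              · rw [if_pos hG, if_pos ⟨hG, h u hu v hv⟩]
              · rw [if_neg hG, if_neg (fun h' => hG h'.1)]
          _ ≤ _ := by
              refine sum_le_sum_of_subset_of_nonneg (subset_univ _) fun v _ _ => ?_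
              split_ifs <;> norm_num
    _ ≤ _ := by
        refine sum_le_sum_of_subset_of_nonneg (subset_univ _) fun u _ _ => ?_
        refine sum_nonneg fun v _ => ?_
        split_ifs <;> norm_num

theorem R_nonneg {N : ℕ} (G : Fin N → Fin N → Prop) (g : Fin N → ℝ) :
    0 ≤ ∑ u, ∑ v, if G u v ∧ 1 / 2 ≤ |g u + g v| then (1 : ℝ) else 0 := by
  refine sum_nonneg fun u _ => sum_nonneg fun v _ => ?_
  split_ifs <;> norm_num

theorem card_ind {N : ℕ} (P : Fin N → Prop) :
    (∑ u, if P u then (1 : ℝ) else 0) = ((univ.filter P).card : ℝ) := by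
  rw [sum_boole]

/-- one sign -/
theorem one_sign {N M : ℕ} {p η β s : ℝ} {G : Fin N → Fin N → Prop} {g : Fin N → ℝ}
    (hNM : N = M + 1) (hp : 0 < p) (hβ : 0 < β) (hη : η ≤ β / 2)
    (hWD : WD G p (p * M) η) (P : Finset (Fin N))
    (hP : ∀ u ∈ P, ∀ v ∈ P, 1 / 2 ≤ |g u + g v|) (hPN : β * N ≤ P.card) (hs : s / 2 ≤ P.card) :
    β / 4 * (p * M) * s ≤ ∑ u, ∑ v, if G u v ∧ 1 / 2 ≤ |g u + g v| then (1 : ℝ) else 0 := by
  refine le_trans ?_ (restrict G g P P hP)
  have h1 := (abs_le.mp (hWD P P)).1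
  rw [max_self] at h1
  have hM : (0 : ℝ) ≤ M := Nat.cast_nonneg M
  have hD : 0 ≤ p * M := by positivity
  have hc : (0 : ℝ) ≤ P.card := Nat.cast_nonneg _
  have hNc : (N : ℝ) = M + 1 := by
    rw [hNM]
    push_cast
    ring
  have h2 : β * (p * M) ≤ p * P.card := by
    have : β * M ≤ P.card := by
      refine le_trans ?_ hPN
      rw [hNc]
      nlinarith
    nlinarith
  have h3 : (β * (p * M)) * P.card ≤ p * P.card * P.card := mul_le_mul_of_nonneg_right h2 hc
  have h4 : η * (p * M) * P.card ≤ β / 2 * (p * M) * P.card :=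
    mul_le_mul_of_nonneg_right (mul_le_mul_of_nonneg_right hη hD) hc
  have h5 : β / 4 * (p * M) * s ≤ β / 2 * (p * M) * P.card := by
    have h6 : β / 2 * (p * M) * (s / 2) ≤ β / 2 * (p * M) * P.card :=
      mul_le_mul_of_nonneg_left hs (by positivity)
    linarith
  linarith

end LinkC

open LinkC in
theorem link_colour (δ : ℝ) (hδ : 0 < δ) (hδ1 : δ ≤ 1) :
    ∃ cL : ℝ, 0 < cL ∧ cL ≤ δ ∧ ∃ η0 : ℝ, 0 < η0 ∧ ∀ (N M : ℕ) (p η : ℝ) (G : Fin N → Fin N → Prop)
      (g : Fin N → ℝ), N = M + 1 → 0 < M → 0 < p → p ≤ 1 → η ≤ η0 → WD G p (p * M) η →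
      (∀ u, 1 ≤ |g u| → δ * (p * M) ≤ ∑ v, if G u v then (1 : ℝ) else 0) →
      cL * (p * M) * ((∑ u, if 1 ≤ |g u| then (1 : ℝ) else 0) -
          1 / 4096 * ∑ u, if 1 / 64 ≤ |g u| then (1 : ℝ) else 0) ≤
        ∑ u, ∑ v, if G u v ∧ 1 / 2 ≤ |g u + g v| then (1 : ℝ) else 0 := by
  set α : ℝ := δ / 65536 with hα
  set β : ℝ := α / 8192 with hβ
  have hα0 : 0 < α := by positivity
  have hβ0 : 0 < β := by positivity
  have hβα : β ≤ α := by
    rw [hβ]
    linarith
  refine ⟨β / 4, by positivity, by rw [hβ, hα]; linarith, β / 2, by positivity, ?_⟩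
  intro N M p η G g hNM hM0 hp hp1 hη hWD hdeg
  have hR := R_nonneg G g
  set R : ℝ := ∑ u, ∑ v, if G u v ∧ 1 / 2 ≤ |g u + g v| then (1 : ℝ) else 0 with hRdef
  rw [card_ind, card_ind]
  set S : Finset (Fin N) := univ.filter (fun u => 1 ≤ |g u|) with hS
  set T : Finset (Fin N) := univ.filter (fun u => 1 / 64 ≤ |g u|) with hT
  have hM : (0 : ℝ) ≤ M := Nat.cast_nonneg M
  have hM1 : (1 : ℝ) ≤ M := by exact_mod_cast hM0
  have hD : 0 < p * M := by positivity
  have hNc : (N : ℝ) = M + 1 := by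
    rw [hNM]
    push_cast
    ring
  have hs0 : (0 : ℝ) ≤ S.card := Nat.cast_nonneg _
  have ht0 : (0 : ℝ) ≤ T.card := Nat.cast_nonneg _
  by_cases hst : (S.card : ℝ) ≤ 1 / 4096 * T.card
  · refine le_trans ?_ hR
    exact mul_nonpos_of_nonneg_of_nonpos (by positivity) (by linarith)
  push Not at hst
  have hcL : β / 4 * (p * M) * ((S.card : ℝ) - 1 / 4096 * T.card) ≤
      β / 4 * (p * M) * S.card := by
    refine mul_le_mul_of_nonneg_left ?_ (by positivity)
    linarith
  refine hcL.trans ?_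
  by_cases htN : (T.card : ℝ) ≤ α * N
  · -- few vertices of size at least 1/64
    have hR1 : eB G S Tᶜ ≤ R := by
      refine restrict G g S Tᶜ fun u hu v hv => ?_
      have h1 : 1 ≤ |g u| := (mem_filter.mp hu).2
      have h2 : |g v| < 1 / 64 := by
        rw [mem_compl, hT, mem_filter, not_and, not_le] at hv
        exact hv (mem_univ v)
      have h3 := abs_sub_abs_le_abs_sub (g u) (-(g v))
      rw [abs_neg, sub_neg_eq_add] at h3
      linarith
    have hsplit : eB G S Tᶜ = (∑ u ∈ S, ∑ v, if G u v then (1 : ℝ) else 0) - eB G S T := by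
      unfold eB
      rw [← sum_sub_distrib]
      refine sum_congr rfl fun u _ => ?_
      rw [← sum_add_sum_compl T]
      ring
    have hlow : δ * (p * M) * S.card ≤ ∑ u ∈ S, ∑ v, if G u v then (1 : ℝ) else 0 := by
      have h1 : ∑ _u ∈ S, δ * (p * M) ≤ ∑ u ∈ S, ∑ v, if G u v then (1 : ℝ) else 0 :=
        sum_le_sum fun u hu => hdeg u (mem_filter.mp hu).2
      rw [sum_const, nsmul_eq_mul] at h1
      linarith
    have hST : S ⊆ T := by
      intro u hu
      rw [hS, mem_filter] at hu
      rw [hT, mem_filter]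
      exact ⟨mem_univ u, by linarith [hu.2]⟩
    have hSTe : eB G S T ≤ eB G T T := by
      unfold eB
      refine sum_le_sum_of_subset_of_nonneg hST fun u _ _ => sum_nonneg fun v _ => ?_
      split_ifs <;> norm_num
    have hTT := (abs_le.mp (hWD T T)).2
    rw [max_self] at hTT
    have h1 : p * T.card * T.card ≤ 2 * α * (p * M) * T.card := by
      have h2 : p * T.card ≤ 2 * α * (p * M) := by
        have h3 : (T.card : ℝ) ≤ 2 * α * M := by
          refine htN.trans ?_
          rw [hNc]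
          nlinarith
        nlinarith
      exact mul_le_mul_of_nonneg_right h2 ht0
    have h2 : η * (p * M) * T.card ≤ α * (p * M) * T.card := by
      have h3 : η ≤ α := by linarith
      exact mul_le_mul_of_nonneg_right (mul_le_mul_of_nonneg_right h3 hD.le) ht0
    have h3 : α * (p * M) * T.card ≤ 4096 * (α * (p * M) * S.card) := by
      have h4 : α * (p * M) * T.card ≤ α * (p * M) * (4096 * S.card) :=
        mul_le_mul_of_nonneg_left (by linarith) (by positivity)
      linarith
    have h4 : α * (p * M) * S.card = δ / 65536 * (p * M) * S.card := by rw [hα]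
    have h5 : 0 ≤ δ * (p * M) * S.card := by positivity
    have h6 : β / 4 * (p * M) * S.card ≤ δ / 2 * (p * M) * S.card := by
      have h7 : β / 4 ≤ δ / 2 := by
        rw [hβ, hα]
        linarith
      exact mul_le_mul_of_nonneg_right (mul_le_mul_of_nonneg_right h7 hD.le) hs0
    linarith
  · push Not at htN
    set P1 : Finset (Fin N) := univ.filter (fun u => 1 ≤ g u) with hP1
    set P2 : Finset (Fin N) := univ.filter (fun u => g u ≤ -1) with hP2
    have hcard : S.card ≤ P1.card + P2.card := by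
      refine le_trans (card_le_card ?_) (card_union_le P1 P2)
      intro u hu
      rw [hS, mem_filter] at hu
      rw [mem_union, hP1, hP2, mem_filter, mem_filter]
      rcases le_abs.mp hu.2 with h | h
      · exact Or.inl ⟨mem_univ u, h⟩
      · exact Or.inr ⟨mem_univ u, by linarith⟩
    have hcardr : (S.card : ℝ) ≤ P1.card + P2.card := by exact_mod_cast hcard
    have hSN : 2 * β * N ≤ S.card := by
      have h1 : 1 / 4096 * (α * N) ≤ 1 / 4096 * T.card := by linarith
      have h2 : 2 * β * N = 1 / 4096 * (α * N) := by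
        rw [hβ]
        ring
      linarith
    rcases le_total (P2.card : ℝ) P1.card with h12 | h12
    · refine one_sign (η := η) (p := p) (M := M) hNM hp hβ0 hη hWD P1 ?_ (by linarith)
        (by linarith)
      intro u hu v hv
      have h1 : 1 ≤ g u := (mem_filter.mp hu).2
      have h2 : 1 ≤ g v := (mem_filter.mp hv).2
      exact le_trans (by linarith) (le_abs_self _)
    · refine one_sign (η := η) (p := p) (M := M) hNM hp hβ0 hη hWD P2 ?_ (by linarith)
        (by linarith)
      intro u hu v hv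
      have h1 : g u ≤ -1 := (mem_filter.mp hu).2
      have h2 : g v ≤ -1 := (mem_filter.mp hv).2
      exact le_trans (by linarith) (neg_le_abs _)

end Pool.Agent.FR
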