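import Pool.Agent.Lib.MP_dcb6ed_co.Defs

/-!
Project FR (MP_dcb6ed_co, MP_6d56f7_co): the link of a vertex.
-/

set_option autoImplicit false

namespace Pool.Agent.FR

open Finset Classical

namespace LinkV

variable {N M : ℕ}

/-- the right hand side -/
noncomputable def RR (B : Fin N → Fin M → Prop) (x : Fin N → ℝ) (y : Fin M → ℝ) : ℝ :=
  ∑ v, ∑ c, if B v c ∧ 1 / 4 ≤ |x v + y c| then (1 : ℝ) else 0

theorem ind_nonneg (P : Prop) [Decidable P] : (0 : ℝ) ≤ if P then (1 : ℝ) else 0 := by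
  split_ifs <;> norm_num

theorem RR_neg (B : Fin N → Fin M → Prop) (x : Fin N → ℝ) (y : Fin M → ℝ) :
    RR B (fun v => -x v) (fun c => -y c) = RR B x y := by
  unfold RR
  refine Finset.sum_congr rfl fun v _ => Finset.sum_congr rfl fun c _ => ?_
  have h : |(-x v) + (-y c)| = |x v + y c| := by
    rw [← neg_add, abs_neg]
  rw [h]

theorem RR_nonneg (B : Fin N → Fin M → Prop) (x : Fin N → ℝ) (y : Fin M → ℝ) : 0 ≤ RR B x y :=
  Finset.sum_nonneg fun _ _ => Finset.sum_nonneg fun _ _ => ind_nonneg _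

theorem eB_le_RR {B : Fin N → Fin M → Prop} {x : Fin N → ℝ} {y : Fin M → ℝ} {F : Finset (Fin N)}
    {G : Finset (Fin M)} (h : ∀ v ∈ F, ∀ c ∈ G, 1 / 4 ≤ |x v + y c|) : eB B F G ≤ RR B x y := by
  unfold eB RR
  calc ∑ v ∈ F, ∑ c ∈ G, (if B v c then (1 : ℝ) else 0) ≤
      ∑ v ∈ F, ∑ c ∈ G, (if B v c ∧ 1 / 4 ≤ |x v + y c| then (1 : ℝ) else 0) := by
        refine Finset.sum_le_sum fun v hv => Finset.sum_le_sum fun c hc => ?_
        by_cases h1 : B v c
        · rw [if_pos h1, if_pos ⟨h1, h v hv c hc⟩]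
        · rw [if_neg h1]
          exact ind_nonneg _
    _ ≤ ∑ v ∈ F, ∑ c, (if B v c ∧ 1 / 4 ≤ |x v + y c| then (1 : ℝ) else 0) := by
        refine Finset.sum_le_sum fun v _ => ?_
        exact Finset.sum_le_sum_of_subset_of_nonneg (Finset.subset_univ _)
          fun _ _ _ => ind_nonneg _
    _ ≤ _ := Finset.sum_le_sum_of_subset_of_nonneg (Finset.subset_univ _)
          fun _ _ _ => Finset.sum_nonneg fun _ _ => ind_nonneg _

/-- the lower bound for the right hand side -/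
theorem low {B : Fin N → Fin M → Prop} {x : Fin N → ℝ} {y : Fin M → ℝ} {p D η : ℝ}
    (hW : WD B p D η) {F : Finset (Fin N)} {G : Finset (Fin M)}
    (h : ∀ v ∈ F, ∀ c ∈ G, 1 / 4 ≤ |x v + y c|) (hD : 0 ≤ D) (hη : 0 ≤ η) {f g : ℝ} (hp : 0 ≤ p)
    (_hf0 : 0 ≤ f) (hf : f ≤ F.card) (hg0 : 0 ≤ g) (hg : g ≤ G.card) (hMN : M ≤ N) :
    p * f * g - η * D * N ≤ RR B x y := by
  have h1 := eB_le_RR (B := B) h
  have h2 := (abs_le.1 (hW F G)).1
  have h3 : max (F.card : ℝ) (G.card : ℝ) ≤ N := by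
    refine max_le ?_ ?_
    · have := Finset.card_le_univ F
      rw [Fintype.card_fin] at this
      exact_mod_cast this
    · have := Finset.card_le_univ G
      rw [Fintype.card_fin] at this
      exact_mod_cast this.trans hMN
  have h4 : η * D * max (F.card : ℝ) (G.card : ℝ) ≤ η * D * N :=
    mul_le_mul_of_nonneg_left h3 (mul_nonneg hη hD)
  have h5 : p * f * g ≤ p * F.card * G.card :=
    mul_le_mul (mul_le_mul_of_nonneg_left hf hp) hg hg0 (mul_nonneg hp (Nat.cast_nonneg _))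
  linarith

theorem card_eq {α : Type} [Fintype α] (P : α → Prop) [DecidablePred P] :
    (∑ v, if P v then (1 : ℝ) else 0) = ((Finset.univ.filter P).card : ℝ) := by
  rw [Finset.sum_boole]

/-- the case of many large values of `y` which are positive -/
theorem caseY {B : Fin N → Fin M → Prop} {x : Fin N → ℝ} {y : Fin M → ℝ} {p η S : ℝ}
    (hNM : N = M + 1) (hM : 0 < M) (hp : 0 < p)
    (hW : WD B p (p * M) η) (hη : 0 ≤ η) (hη1 : η ≤ 1 / 8) (hS0 : 0 ≤ S) (hS2 : S ≤ 2 * N)
    (hS : η * N ≤ S / 16)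
    (hmed : (M : ℝ) ≤ 2 * ((Finset.univ.filter fun c => y c ≤ 0).card : ℝ))
    (hY : S / 4 ≤ ((Finset.univ.filter fun c => 1 ≤ y c).card : ℝ)) :
    (p * M) * S / 16 ≤ RR B x y := by
  have hMN : M ≤ N := by omega
  have hN' : (N : ℝ) = M + 1 := by
    rw [hNM]
    push_cast
    rfl
  have hM' : (0 : ℝ) < M := by exact_mod_cast hM
  have hD : 0 < p * M := mul_pos hp hM'
  have hDN : p * M ≤ p * N := by
    rw [hN']
    nlinarith
  have hcard : ((Finset.univ.filter fun v => -(1 / 2) ≤ x v).card : ℝ) +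
      ((Finset.univ.filter fun v => ¬ -(1 / 2) ≤ x v).card : ℝ) = N := by
    have := Finset.card_filter_add_card_filter_not (s := (Finset.univ : Finset (Fin N)))
      (fun v => -(1 / 2) ≤ x v)
    rw [Finset.card_univ, Fintype.card_fin] at this
    exact_mod_cast this
  have hηD : η * (p * M) * N ≤ (p * M) * S / 16 := by
    have := mul_le_mul_of_nonneg_left hS hD.le
    linarith
  by_cases h1 : (N : ℝ) / 2 ≤ ((Finset.univ.filter fun v => -(1 / 2) ≤ x v).card : ℝ)
  · have h2 := low (x := x) (y := y) hW (F := Finset.univ.filter fun v => -(1 / 2) ≤ x v)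
      (G := Finset.univ.filter fun c => 1 ≤ y c) (f := (N : ℝ) / 2) (g := S / 4)
      (by
        intro v hv c hc
        rw [Finset.mem_filter] at hv hc
        have := hv.2
        have := hc.2
        rw [abs_of_nonneg] <;> linarith) hD.le hη hp.le (by positivity) h1 (by positivity) hY hMN
    have h3 : (p * M) * S / 8 ≤ p * ((N : ℝ) / 2) * (S / 4) := by
      have := mul_le_mul_of_nonneg_right hDN hS0
      nlinarith
    linarith
  · have h1' : (N : ℝ) / 2 ≤ ((Finset.univ.filter fun v => ¬ -(1 / 2) ≤ x v).card : ℝ) := by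
      linarith
    have h2 := low (x := x) (y := y) hW (F := Finset.univ.filter fun v => ¬ -(1 / 2) ≤ x v)
      (G := Finset.univ.filter fun c => y c ≤ 0) (f := (N : ℝ) / 2) (g := (M : ℝ) / 2)
      (by
        intro v hv c hc
        rw [Finset.mem_filter] at hv hc
        have h3 := not_le.1 hv.2
        have h4 := hc.2
        rw [abs_of_nonpos] <;> linarith) hD.le hη hp.le (by positivity) h1' (by positivity)
        (by linarith) hMN
    have h3 : p * ((N : ℝ) / 2) * ((M : ℝ) / 2) = (p * M) * N / 4 := by ring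
    have h4 : η * (p * M) * N ≤ (p * M) * N / 8 := by
      have h5 : 0 ≤ (p * M) * N := by positivity
      nlinarith
    have h6 : (p * M) * S / 16 ≤ (p * M) * N / 8 := by
      nlinarith
    linarith

/-- the case of many large values of `x` which are positive -/
theorem caseX {B : Fin N → Fin M → Prop} {x : Fin N → ℝ} {y : Fin M → ℝ} {p η S : ℝ}
    (hNM : N = M + 1) (hM : 0 < M) (hp : 0 < p)
    (hW : WD B p (p * M) η) (hη : 0 ≤ η) (hS0 : 0 ≤ S)
    (hS : η * N ≤ S / 16)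
    (hmed : (M : ℝ) ≤ 2 * ((Finset.univ.filter fun c => 0 ≤ y c).card : ℝ))
    (hX : S / 4 ≤ ((Finset.univ.filter fun v => 1 ≤ x v).card : ℝ)) :
    (p * M) * S / 16 ≤ RR B x y := by
  have hMN : M ≤ N := by omega
  have hM' : (0 : ℝ) < M := by exact_mod_cast hM
  have hD : 0 < p * M := mul_pos hp hM'
  have hηD : η * (p * M) * N ≤ (p * M) * S / 16 := by
    have := mul_le_mul_of_nonneg_left hS hD.le
    linarith
  have h2 := low (x := x) (y := y) hW (F := Finset.univ.filter fun v => 1 ≤ x v)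
    (G := Finset.univ.filter fun c => 0 ≤ y c) (f := S / 4) (g := (M : ℝ) / 2)
    (by
      intro v hv c hc
      rw [Finset.mem_filter] at hv hc
      have := hv.2
      have := hc.2
      rw [abs_of_nonneg] <;> linarith) hD.le hη hp.le (by positivity) hX (by positivity)
      (by linarith) hMN
  have h3 : p * (S / 4) * ((M : ℝ) / 2) = (p * M) * S / 8 := by ring
  linarith

/-- the two halves of the large values -/
theorem halves {α : Type} [Fintype α] (z : α → ℝ) :
    ((Finset.univ.filter fun v => 1 ≤ |z v|).card : ℝ) ≤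
      ((Finset.univ.filter fun v => 1 ≤ z v).card : ℝ) +
      ((Finset.univ.filter fun v => 1 ≤ -z v).card : ℝ) := by
  rw [← card_eq, ← card_eq, ← card_eq, ← Finset.sum_add_distrib]
  refine Finset.sum_le_sum fun v _ => ?_
  by_cases h : 1 ≤ |z v|
  · rw [if_pos h]
    rcases le_abs.1 h with h1 | h1
    · rw [if_pos h1]
      have := ind_nonneg (1 ≤ -z v)
      linarith
    · rw [if_pos h1]
      have := ind_nonneg (1 ≤ z v)
      linarith
  · rw [if_neg h]
    exact add_nonneg (ind_nonneg _) (ind_nonneg _)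

/-- the second case -/
theorem case2 {B : Fin N → Fin M → Prop} {x : Fin N → ℝ} {y : Fin M → ℝ} {p η S : ℝ}
    (hNM : N = M + 1) (hM : 0 < M) (hp : 0 < p)
    (hW : WD B p (p * M) η) (hη : 0 ≤ η) (hη1 : η ≤ 1 / 8)
    (hSeq : S = ((Finset.univ.filter fun v => 1 ≤ |x v|).card : ℝ) +
      ((Finset.univ.filter fun c => 1 ≤ |y c|).card : ℝ))
    (hS : η * N ≤ S / 16) (hmed : MedZero y) :
    (p * M) * S / 16 ≤ RR B x y := by
  have hS0 : 0 ≤ S := by
    rw [hSeq]
    positivity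
  have hS2 : S ≤ 2 * N := by
    have h1 := Finset.card_le_univ (Finset.univ.filter fun v : Fin N => 1 ≤ |x v|)
    have h2 := Finset.card_le_univ (Finset.univ.filter fun c : Fin M => 1 ≤ |y c|)
    rw [Fintype.card_fin] at h1 h2
    have h3 : ((Finset.univ.filter fun v : Fin N => 1 ≤ |x v|).card : ℝ) ≤ N := by
      exact_mod_cast h1
    have h4 : ((Finset.univ.filter fun c : Fin M => 1 ≤ |y c|).card : ℝ) ≤ N := by
      have : M ≤ N := by omega
      exact_mod_cast h2.trans this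
    linarith
  obtain ⟨hm1, hm2⟩ := hmed
  rw [card_eq] at hm1 hm2
  have hx := halves x
  have hy := halves y
  have hn1 : (M : ℝ) ≤ 2 * ((Finset.univ.filter fun c => 0 ≤ -y c).card : ℝ) := by
    simpa only [neg_nonneg] using hm2
  have hn2 : (M : ℝ) ≤ 2 * ((Finset.univ.filter fun c => -y c ≤ 0).card : ℝ) := by
    simpa only [neg_nonpos] using hm1
  by_cases h1 : S / 4 ≤ ((Finset.univ.filter fun c => 1 ≤ y c).card : ℝ)
  · exact caseY hNM hM hp hW hη hη1 hS0 hS2 hS hm2 h1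
  by_cases h2 : S / 4 ≤ ((Finset.univ.filter fun c => 1 ≤ -y c).card : ℝ)
  · rw [← RR_neg]
    exact caseY (x := fun v => -x v) (y := fun c => -y c) hNM hM hp hW hη hη1 hS0 hS2 hS hn2 h2
  by_cases h3 : S / 4 ≤ ((Finset.univ.filter fun v => 1 ≤ x v).card : ℝ)
  · exact caseX hNM hM hp hW hη hS0 hS hm1 h3
  by_cases h4 : S / 4 ≤ ((Finset.univ.filter fun v => 1 ≤ -x v).card : ℝ)
  · rw [← RR_neg]
    exact caseX (x := fun v => -x v) (y := fun c => -y c) hNM hM hp hW hη hS0 hS hn1 h4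
  exfalso
  linarith

/-- the first case -/
theorem case1 {B : Fin N → Fin M → Prop} {x : Fin N → ℝ} {y : Fin M → ℝ} {D δ : ℝ}
    (hx : ∀ v, 1 ≤ |x v| → δ * D ≤ ∑ c, if B v c then (1 : ℝ) else 0)
    (hy : ∀ c, 1 ≤ |y c| → δ * D ≤ ∑ v, if B v c then (1 : ℝ) else 0) :
    δ * D * ((∑ v, if 1 ≤ |x v| then (1 : ℝ) else 0) + ∑ c, if 1 ≤ |y c| then (1 : ℝ) else 0) -
      2 * eB B (Finset.univ.filter fun v => 1 / 64 ≤ |x v|)
        (Finset.univ.filter fun c => 1 / 64 ≤ |y c|) ≤ RR B x y := by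
  have e1 : eB B (Finset.univ.filter fun v => 1 / 64 ≤ |x v|)
      (Finset.univ.filter fun c => 1 / 64 ≤ |y c|) =
      ∑ v, ∑ c, if 1 / 64 ≤ |x v| ∧ 1 / 64 ≤ |y c| ∧ B v c then (1 : ℝ) else 0 := by
    unfold eB
    rw [Finset.sum_filter]
    refine Finset.sum_congr rfl fun v _ => ?_
    by_cases h : 1 / 64 ≤ |x v|
    · rw [if_pos h, Finset.sum_filter]
      refine Finset.sum_congr rfl fun c _ => ?_
      by_cases h1 : 1 / 64 ≤ |y c|
      · rw [if_pos h1]
        exact if_congr ⟨fun h2 => ⟨h, h1, h2⟩, fun h2 => h2.2.2⟩ rfl rfl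
      · rw [if_neg h1, if_neg (fun h2 => h1 h2.2.1)]
    · rw [if_neg h]
      symm
      refine Finset.sum_eq_zero fun c _ => ?_
      rw [if_neg (fun h1 => h h1.1)]
  have a1 : δ * D * (∑ v, if 1 ≤ |x v| then (1 : ℝ) else 0) ≤
      ∑ v, ∑ c, if 1 ≤ |x v| ∧ B v c then (1 : ℝ) else 0 := by
    rw [Finset.mul_sum]
    refine Finset.sum_le_sum fun v _ => ?_
    by_cases h : 1 ≤ |x v|
    · simpa [h] using hx v h
    · simp [h]
  have a2 : δ * D * (∑ c, if 1 ≤ |y c| then (1 : ℝ) else 0) ≤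
      ∑ v, ∑ c, if 1 ≤ |y c| ∧ B v c then (1 : ℝ) else 0 := by
    rw [Finset.sum_comm, Finset.mul_sum]
    refine Finset.sum_le_sum fun c _ => ?_
    by_cases h : 1 ≤ |y c|
    · simpa [h] using hy c h
    · simp [h]
  have key : (∑ v, ∑ c, if 1 ≤ |x v| ∧ B v c then (1 : ℝ) else 0) +
      (∑ v, ∑ c, if 1 ≤ |y c| ∧ B v c then (1 : ℝ) else 0) ≤ RR B x y +
      2 * ∑ v, ∑ c, if 1 / 64 ≤ |x v| ∧ 1 / 64 ≤ |y c| ∧ B v c then (1 : ℝ) else 0 := by
    unfold RR
    rw [Finset.mul_sum, ← Finset.sum_add_distrib, ← Finset.sum_add_distrib]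
    refine Finset.sum_le_sum fun v _ => ?_
    rw [Finset.mul_sum, ← Finset.sum_add_distrib, ← Finset.sum_add_distrib]
    refine Finset.sum_le_sum fun c _ => ?_
    by_cases hB : B v c
    · simp only [hB, true_and, and_true]
      by_cases hx1 : 1 ≤ |x v| <;> by_cases hy1 : 1 ≤ |y c|
      · rw [if_pos hx1, if_pos hy1, if_pos (show 1 / 64 ≤ |x v| ∧ 1 / 64 ≤ |y c| from
          ⟨by linarith, by linarith⟩)]
        have := ind_nonneg (1 / 4 ≤ |x v + y c|)
        linarith
      · rw [if_pos hx1, if_neg hy1]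
        by_cases hy2 : 1 / 64 ≤ |y c|
        · rw [if_pos (show 1 / 64 ≤ |x v| ∧ 1 / 64 ≤ |y c| from ⟨by linarith, hy2⟩)]
          have := ind_nonneg (1 / 4 ≤ |x v + y c|)
          linarith
        · have h3 : 1 / 4 ≤ |x v + y c| := by
            have h4 : |x v| ≤ |x v + y c| + |y c| := by
              have := abs_sub (x v + y c) (y c)
              rwa [add_sub_cancel_right] at this
            linarith
          rw [if_pos h3]
          have := ind_nonneg (1 / 64 ≤ |x v| ∧ 1 / 64 ≤ |y c|)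
          linarith
      · rw [if_neg hx1, if_pos hy1]
        by_cases hx2 : 1 / 64 ≤ |x v|
        · rw [if_pos (show 1 / 64 ≤ |x v| ∧ 1 / 64 ≤ |y c| from ⟨hx2, by linarith⟩)]
          have := ind_nonneg (1 / 4 ≤ |x v + y c|)
          linarith
        · have h3 : 1 / 4 ≤ |x v + y c| := by
            have h4 : |y c| ≤ |x v + y c| + |x v| := by
              have := abs_sub (x v + y c) (x v)
              rwa [add_sub_cancel_left] at this
            linarith
          rw [if_pos h3]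
          have := ind_nonneg (1 / 64 ≤ |x v| ∧ 1 / 64 ≤ |y c|)
          linarith
      · rw [if_neg hx1, if_neg hy1]
        have := ind_nonneg (1 / 4 ≤ |x v + y c|)
        have := ind_nonneg (1 / 64 ≤ |x v| ∧ 1 / 64 ≤ |y c|)
        linarith
    · simp [hB]
  rw [e1, mul_add]
  linarith

end LinkV

open LinkV in
theorem link_vertex (δ : ℝ) (hδ : 0 < δ) (hδ1 : δ ≤ 1) :
    ∃ cL : ℝ, 0 < cL ∧ cL ≤ δ ∧ ∃ η0 : ℝ, 0 < η0 ∧ ∀ (N M : ℕ) (p η : ℝ) (B : Fin N → Fin M → Prop)
      (x : Fin N → ℝ) (y : Fin M → ℝ), N = M + 1 → 0 < M → 0 < p → p ≤ 1 → η ≤ η0 →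
      WD B p (p * M) η → MedZero y →
      (∀ v, 1 ≤ |x v| → δ * (p * M) ≤ ∑ c, if B v c then (1 : ℝ) else 0) →
      (∀ c, 1 ≤ |y c| → δ * (p * M) ≤ ∑ v, if B v c then (1 : ℝ) else 0) →
      cL * (p * M) * (((∑ v, if 1 ≤ |x v| then (1 : ℝ) else 0) + ∑ c, if 1 ≤ |y c| then (1 : ℝ) else 0)
        - 1 / 4096 * ((∑ v, if 1 / 64 ≤ |x v| then (1 : ℝ) else 0) +
          ∑ c, if 1 / 64 ≤ |y c| then (1 : ℝ) else 0)) ≤
        ∑ v, ∑ c, if B v c ∧ 1 / 4 ≤ |x v + y c| then (1 : ℝ) else 0 := by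
  refine ⟨δ / 16, by positivity, by linarith, δ / 2 ^ 36, by positivity, ?_⟩
  intro N M p η B x y hNM hM hp hp1 hη hW0 hmed hx hy
  have hM' : (0 : ℝ) < M := by exact_mod_cast hM
  have hD : 0 < p * M := mul_pos hp hM'
  set D : ℝ := p * M with hDdef
  set e : ℝ := δ / 2 ^ 36 with he
  have he0 : 0 < e := by positivity
  have he1 : e ≤ 1 / 8 := by
    rw [he, div_le_iff₀ (by positivity)]
    norm_num
    linarith
  have hW : WD B p D e := by
    intro F G
    refine (hW0 F G).trans ?_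
    refine mul_le_mul_of_nonneg_right (mul_le_mul_of_nonneg_right hη hD.le) ?_
    exact le_max_of_le_left (Nat.cast_nonneg _)
  change _ ≤ RR B x y
  set S : ℝ := (∑ v, if 1 ≤ |x v| then (1 : ℝ) else 0) + ∑ c, if 1 ≤ |y c| then (1 : ℝ) else 0
    with hS
  set T : ℝ := (∑ v, if 1 / 64 ≤ |x v| then (1 : ℝ) else 0) +
    ∑ c, if 1 / 64 ≤ |y c| then (1 : ℝ) else 0 with hT
  have hRR := RR_nonneg B x y
  have hS0 : 0 ≤ S := add_nonneg (Finset.sum_nonneg fun _ _ => ind_nonneg _)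
    (Finset.sum_nonneg fun _ _ => ind_nonneg _)
  have hT0 : 0 ≤ T := add_nonneg (Finset.sum_nonneg fun _ _ => ind_nonneg _)
    (Finset.sum_nonneg fun _ _ => ind_nonneg _)
  by_cases h0 : S - 1 / 4096 * T ≤ 0
  · refine le_trans ?_ hRR
    exact mul_nonpos_of_nonneg_of_nonpos (by positivity) h0
  have hTS : T ≤ 4096 * S := by linarith [not_le.1 h0]
  have hred : δ / 16 * D * (S - 1 / 4096 * T) ≤ δ / 16 * D * S := by
    refine mul_le_mul_of_nonneg_left ?_ (by positivity)
    linarith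
  refine hred.trans ?_
  have hN' : (N : ℝ) = M + 1 := by
    rw [hNM]
    push_cast
    rfl
  have hM1 : (1 : ℝ) ≤ M := by exact_mod_cast hM
  have hpN : p * N ≤ 2 * D := by
    rw [hN', hDdef]
    nlinarith
  by_cases h1 : T ≤ δ / 2 ^ 17 * N
  · have hc1 := case1 hx hy
    rw [← hS] at hc1
    set Tx := Finset.univ.filter fun v => 1 / 64 ≤ |x v| with hTx
    set Ty := Finset.univ.filter fun c => 1 / 64 ≤ |y c| with hTy
    have hTc : T = (Tx.card : ℝ) + (Ty.card : ℝ) := by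
      rw [hT, card_eq, card_eq]
    have hw := (abs_le.1 (hW Tx Ty)).2
    have hmax : max (Tx.card : ℝ) (Ty.card : ℝ) ≤ T := by
      rw [hTc]
      refine max_le ?_ ?_
      · have : (0 : ℝ) ≤ (Ty.card : ℝ) := Nat.cast_nonneg _
        linarith
      · have : (0 : ℝ) ≤ (Tx.card : ℝ) := Nat.cast_nonneg _
        linarith
    have hprod : p * Tx.card * Ty.card ≤ δ / 2 ^ 16 * D * T := by
      have h2 : (Tx.card : ℝ) * Ty.card ≤ T * T := by
        have h3 : (Tx.card : ℝ) ≤ T := (le_max_left _ _).trans hmax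
        have h4 : (Ty.card : ℝ) ≤ T := (le_max_right _ _).trans hmax
        exact mul_le_mul h3 h4 (Nat.cast_nonneg _) hT0
      have h5 : p * (T * T) ≤ p * (δ / 2 ^ 17 * N * T) :=
        mul_le_mul_of_nonneg_left (mul_le_mul_of_nonneg_right h1 hT0) hp.le
      have h6 : p * (δ / 2 ^ 17 * N * T) = (p * N) * (δ / 2 ^ 17 * T) := by ring
      have h7 : (p * N) * (δ / 2 ^ 17 * T) ≤ (2 * D) * (δ / 2 ^ 17 * T) :=
        mul_le_mul_of_nonneg_right hpN (by positivity)
      have h8 : p * Tx.card * Ty.card ≤ p * (T * T) := by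
        rw [mul_assoc]
        exact mul_le_mul_of_nonneg_left h2 hp.le
      calc p * Tx.card * Ty.card ≤ (2 * D) * (δ / 2 ^ 17 * T) := by linarith
        _ = δ / 2 ^ 16 * D * T := by ring
    have heT : e * D * max (Tx.card : ℝ) (Ty.card : ℝ) ≤ e * D * T :=
      mul_le_mul_of_nonneg_left hmax (by positivity)
    have h9 : eB B Tx Ty ≤ (δ / 2 ^ 16 + e) * D * T := by
      have : (δ / 2 ^ 16 + e) * D * T = δ / 2 ^ 16 * D * T + e * D * T := by ring
      linarith
    have h10 : (δ / 2 ^ 16 + e) * D * T ≤ (δ / 2 ^ 15) * D * (4096 * S) := by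
      have h11 : δ / 2 ^ 16 + e ≤ δ / 2 ^ 15 := by
        rw [he]
        have : δ / 2 ^ 36 ≤ δ / 2 ^ 16 := by
          apply div_le_div_of_nonneg_left hδ.le (by positivity)
          norm_num
        have h12 : δ / 2 ^ 15 = δ / 2 ^ 16 + δ / 2 ^ 16 := by ring
        linarith
      exact mul_le_mul (mul_le_mul_of_nonneg_right h11 hD.le) hTS hT0 (by positivity)
    have h13 : (δ / 2 ^ 15) * D * (4096 * S) = δ / 8 * D * S := by ring
    have h14 : 0 ≤ δ * D * S := by positivity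
    linarith
  · have hS' : S = ((Finset.univ.filter fun v => 1 ≤ |x v|).card : ℝ) +
        ((Finset.univ.filter fun c => 1 ≤ |y c|).card : ℝ) := by
      rw [hS, card_eq, card_eq]
    have h2 : e * N ≤ S / 16 := by
      have h3 : δ / 2 ^ 17 * N ≤ 4096 * S := by linarith [not_le.1 h1]
      have h4 : e * N = (δ / 2 ^ 17 * N) / 2 ^ 19 := by
        rw [he]
        ring
      rw [h4]
      linarith
    have h3 := case2 hNM hM hp hW he0.le he1 hS' h2 hmed
    rw [← hDdef] at h3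
    have h4 : δ / 16 * D * S ≤ D * S / 16 := by
      have : 0 ≤ D * S := by positivity
      nlinarith
    linarith

end Pool.Agent.FR
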