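import Mathlib
import Pool.Agent.Lib.MP_dcb6ed_co.Defs

/-!
Project FR (MP_dcb6ed_co, MP_6d56f7_co): existence of medians.
-/

set_option autoImplicit false

namespace Pool.Agent.FR

open Finset Classical

namespace Median

theorem exists_t {M : ℕ} (A : Finset (Fin M)) (x : Fin M → ℝ) :
    ∃ t : ℝ, A.card ≤ 2 * (A.filter fun c => x c ≤ t).card ∧
      A.card ≤ 2 * (A.filter fun c => t ≤ x c).card := by
  rcases A.eq_empty_or_nonempty with rfl | hA
  · exact ⟨0, by simp, by simp⟩
  · set S := A.filter fun c0 => A.card ≤ 2 * (A.filter fun c => x c ≤ x c0).card with hS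
    have hSn : S.Nonempty := by
      obtain ⟨m, hm, hmax⟩ := A.exists_max_image x hA
      refine ⟨m, ?_⟩
      rw [hS, mem_filter]
      refine ⟨hm, ?_⟩
      have h1 : (A.filter fun c => x c ≤ x m) = A := filter_true_of_mem hmax
      rw [h1]
      omega
    obtain ⟨c0, hc0, hmin⟩ := S.exists_min_image x hSn
    refine ⟨x c0, (mem_filter.1 hc0).2, ?_⟩
    by_contra hcon
    push Not at hcon
    have h2 : (A.filter fun c => x c0 ≤ x c).card + (A.filter fun c => ¬ x c0 ≤ x c).card =
        A.card := card_filter_add_card_filter_not _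
    have h3 : (A.filter fun c => ¬ x c0 ≤ x c).Nonempty := by
      rw [← card_pos]
      omega
    obtain ⟨c1, hc1, hmax⟩ := (A.filter fun c => ¬ x c0 ≤ x c).exists_max_image x h3
    obtain ⟨hc1A, hc1x⟩ := mem_filter.1 hc1
    have h4 : (A.filter fun c => ¬ x c0 ≤ x c) ⊆ A.filter fun c => x c ≤ x c1 := by
      intro c hc
      exact mem_filter.2 ⟨(mem_filter.1 hc).1, hmax c hc⟩
    have h5 := card_le_card h4
    have h6 : c1 ∈ S := by
      rw [hS, mem_filter]
      exact ⟨hc1A, by omega⟩
    exact hc1x (hmin c1 h6)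

theorem count {M : ℕ} (R P Q : Fin M → Prop) (h1 : ∀ c, R c → P c)
    (h2 : ∀ c, ¬ R c → Q c → P c)
    (h3 : (univ.filter fun c => ¬ R c).card ≤
      2 * ((univ.filter fun c => ¬ R c).filter Q).card) :
    (M : ℝ) ≤ 2 * (∑ c, if P c then (1 : ℝ) else 0) := by
  rw [sum_boole]
  have h4 : (univ.filter R).card + (univ.filter fun c => ¬ R c).card = M := by
    rw [card_filter_add_card_filter_not, card_univ, Fintype.card_fin]
  have h5 : (univ.filter R) ∪ ((univ.filter fun c => ¬ R c).filter Q) ⊆ univ.filter P := by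
    intro c hc
    rcases mem_union.1 hc with hc | hc
    · exact mem_filter.2 ⟨mem_univ c, h1 c (mem_filter.1 hc).2⟩
    · obtain ⟨hc1, hc2⟩ := mem_filter.1 hc
      exact mem_filter.2 ⟨mem_univ c, h2 c (mem_filter.1 hc1).2 hc2⟩
  have h6 : Disjoint (univ.filter R) ((univ.filter fun c => ¬ R c).filter Q) := by
    rw [disjoint_left]
    intro c hc hc'
    exact (mem_filter.1 (mem_filter.1 hc').1).2 (mem_filter.1 hc).2
  have h7 := card_le_card h5
  rw [card_union_of_disjoint h6] at h7
  have h8 : M ≤ 2 * (univ.filter P).card := by omega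
  exact_mod_cast h8

end Median

theorem exists_median {M : ℕ} (R : Fin M → Prop) (x : Fin M → ℝ) :
    ∃ t : ℝ, MedZero (fun c => if R c then 0 else x c - t) := by
  obtain ⟨t, ht1, ht2⟩ := Median.exists_t (univ.filter fun c => ¬ R c) x
  refine ⟨t, ?_, ?_⟩
  · refine Median.count R _ (fun c => t ≤ x c) ?_ ?_ ht2
    · intro c hc
      simp [hc]
    · intro c hc hx
      simp only [hc, if_false]
      linarith
  · refine Median.count R _ (fun c => x c ≤ t) ?_ ?_ ht1
    · intro c hc
      simp [hc]
    · intro c hc hx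
      simp only [hc, if_false]
      linarith

end Pool.Agent.FR
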