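import Pool.Agent.Lib.MP_dcb6ed_co.Defs
import Pool.Agent.Lib.MP_d11e37_lc.Prob

/-!
Project FR (MP_dcb6ed_co, MP_6d56f7_co), module Up: upper bounds for the degrees.
-/

set_option autoImplicit false

namespace Pool.Agent.FR

open Finset Classical Pool.Agent.MPd11e37lc Filter

namespace Up

theorem pr_coord {I : Type} [Fintype I] [DecidableEq I] (p : ℝ) (i : I) :
    Pr p (fun ω : I → Bool => ω i = true) = p := by
  suffices h0 : (∑ ω : I → Bool, (∏ e, if ω e then p else 1 - p) *
      (if ω i = true then (1 : ℝ) else 0)) = p by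
    refine Eq.trans ?_ h0
    unfold Pr Ex wt
    apply Finset.sum_congr rfl
    intro ω _
    congr!
  have h1 : ∀ ω : I → Bool, (∏ e, if ω e then p else 1 - p) * (if ω i = true then (1 : ℝ) else 0)
      = ∏ e, (if e = i then (if ω e then p else 0) else (if ω e then p else 1 - p)) := by
    intro ω
    by_cases h : ω i = true
    · rw [if_pos h, mul_one]
      apply Finset.prod_congr rfl
      intro e _
      by_cases he : e = i
      · subst he
        simp [h]
      · simp [he]
    · rw [if_neg h, mul_zero]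
      symm
      apply Finset.prod_eq_zero (Finset.mem_univ i)
      simp [h]
  simp_rw [h1]
  have h2 := Finset.prod_univ_sum (fun _ : I => (Finset.univ : Finset Bool))
    (fun e b => if e = i then (if b then p else 0) else (if b then p else 1 - p))
  rw [Fintype.piFinset_univ] at h2
  rw [← h2]
  have h3 : ∀ e ∈ (Finset.univ : Finset I),
      (∑ b : Bool, if e = i then (if b = true then p else 0) else (if b = true then p else 1 - p))
      = if e = i then p else 1 := by
    intro e _
    by_cases he : e = i <;> simp [he]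
  refine (Finset.prod_congr rfl h3).trans ?_
  rw [Finset.prod_ite_eq' Finset.univ i (fun _ => p)]
  simp

theorem depOn_coord {I : Type} [Fintype I] [DecidableEq I] (i : I) :
    DepOn (fun ω : I → Bool => ω i = true) {i} := by
  intro ω ω' h
  simp [h i (by simp)]

/-- the tail bound for one family of coordinates -/
theorem tail {I ι : Type} [Fintype I] [DecidableEq I] {p : ℝ} (h0 : 0 < p) (h1 : p ≤ 1)
    (s : Finset ι) (f : ι → I) (hf : ∀ i ∈ s, ∀ j ∈ s, i ≠ j → f i ≠ f j) (M : ℕ)
    (hs : s.card = M) :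
    Pr p (fun ω : I → Bool => 64 * (p * M) ≤ ∑ i ∈ s, if ω (f i) = true then (1 : ℝ) else 0) ≤
      Real.exp (-(8 * (p * M))) := by
  have h := chernoff_upper (I := I) (p := p) (q := 32 * p) (l := 1) h0.le h1 s
    (fun i ω => ω (f i) = true) (fun i => {f i}) (fun i _ => depOn_coord (f i))
    (fun i hi j hj hij => by
      rw [Finset.disjoint_singleton]
      exact hf i hi j hj hij) (by positivity)
    (fun i _ => by rw [pr_coord]; linarith) zero_le_one le_rfl
  have e1 : -((1:ℝ) ^ 2 * (s.card * (32 * p)) / 4) = -(8 * (p * M)) := by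
    rw [hs]; ring
  rw [e1] at h
  refine le_trans (Pr_mono h0.le h1 ?_) h
  intro ω hω
  have e2 : ((s.filter fun i => ω (f i) = true).card : ℝ) =
      ∑ i ∈ s, if ω (f i) = true then (1 : ℝ) else 0 := by
    rw [Finset.card_filter]
    push_cast
    rfl
  have e3 : (1 + (1:ℝ)) * (s.card * (32 * p)) = 64 * (p * M) := by
    rw [hs]; ring
  rw [e3]
  calc 64 * (p * (M : ℝ)) ≤ _ := hω
    _ = _ := e2.symm
    _ = _ := by congr!

end Up

theorem whp_up :
    ∃ N0 : ℕ, ∀ (N M : ℕ) (p : ℝ), N = M + 1 → N0 ≤ N → 0 < p → p ≤ 1 → Real.log N ≤ p * M →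
      Pr p (fun ω : Idx N M → Bool => ¬ ((∀ u v, dE (HH ω) u v ≤ 64 * (p * M)) ∧
        ∀ u c, dC (HH ω) u c ≤ 64 * (p * M))) ≤ 1 / (N : ℝ) ^ 5 := by
  refine ⟨2, ?_⟩
  intro N M p hNM hN h0 h1 hlog
  have hNR : (2 : ℝ) ≤ N := by exact_mod_cast hN
  have hNpos : (0 : ℝ) < N := by linarith
  have hpM : 0 ≤ p * M := by positivity
  have hexp : Real.exp (-(8 * (p * M))) ≤ 1 / (N : ℝ) ^ 8 := by
    have e1 : (1 : ℝ) / (N : ℝ) ^ 8 = Real.exp (-(8 * Real.log N)) := by
      rw [Real.exp_neg, one_div]
      congr 1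
      rw [mul_comm, Real.exp_mul, Real.exp_log hNpos]
      norm_cast
    rw [e1]
    apply Real.exp_le_exp.2
    linarith
  let A : Fin N × Fin N → (Idx N M → Bool) → Prop := fun x ω =>
    x.1 ≠ x.2 ∧ 64 * (p * M) ≤ dE (HH ω) x.1 x.2
  let B : Fin N × Fin M → (Idx N M → Bool) → Prop := fun x ω => 64 * (p * M) ≤ dC (HH ω) x.1 x.2
  have hA : ∀ x, Pr p (A x) ≤ 1 / (N : ℝ) ^ 8 := by
    rintro ⟨u, v⟩
    by_cases huv : u = v
    · rw [Pr_false]
      · positivity
      · intro ω h
        exact h.1 huv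
    · refine le_trans ?_ hexp
      refine le_trans (Pr_mono h0.le h1 ?_) (Up.tail (I := Idx N M) h0 h1
        (Finset.univ : Finset (Fin M)) (fun c => (c, ⟨s(u, v), by simpa using huv⟩)) ?_ M (by simp))
      · intro ω h
        refine h.2.trans (le_of_eq ?_)
        unfold dE
        apply Finset.sum_congr rfl
        intro c _
        have : HH ω u v c ↔ ω (c, ⟨s(u, v), by simpa using huv⟩) = true := by
          constructor
          · rintro ⟨_, h'⟩
            exact h'
          · intro h'
            exact ⟨huv, h'⟩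
        simp only [this]
      · intro i _ j _ hij h
        exact hij (Prod.ext_iff.1 h).1
  have hB : ∀ x, Pr p (B x) ≤ 1 / (N : ℝ) ^ 8 := by
    rintro ⟨u, c⟩
    refine le_trans ?_ hexp
    -- the edges at `u`
    let f : Fin N → Idx N M := fun v => if h : u ≠ v then (c, ⟨s(u, v), by simpa using h⟩)
      else (c, ⟨s(u, if u.1 = 0 then ⟨1, by omega⟩ else ⟨0, by omega⟩), by
        rw [Sym2.mk_isDiag_iff]
        intro h'
        split_ifs at h' with h''
        · rw [h'] at h''
          simp at h''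
        · rw [h'] at h''
          simp at h''⟩)
    have hf : ∀ v, ∀ h : u ≠ v, f v = (c, ⟨s(u, v), by simpa using h⟩) := by
      intro v h
      simp only [f]
      rw [dif_pos h]
    refine le_trans (Pr_mono h0.le h1 ?_) (Up.tail (I := Idx N M) h0 h1
      ((Finset.univ : Finset (Fin N)).erase u) f ?_ M ?_)
    · intro ω h
      refine le_trans (b := dC (HH ω) u c) h (le_of_eq ?_)
      unfold dC
      rw [← Finset.add_sum_erase Finset.univ _ (Finset.mem_univ u), if_neg (hh_irr ω u c), zero_add]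
      apply Finset.sum_congr rfl
      intro v hv
      have huv : u ≠ v := (Finset.ne_of_mem_erase hv).symm
      have : HH ω u v c ↔ ω (f v) = true := by
        rw [hf v huv]
        constructor
        · rintro ⟨_, h'⟩
          exact h'
        · intro h'
          exact ⟨huv, h'⟩
      simp only [this]
    · intro i hi j hj hij h
      have hui : u ≠ i := (Finset.ne_of_mem_erase hi).symm
      have huj : u ≠ j := (Finset.ne_of_mem_erase hj).symm
      rw [hf i hui, hf j huj] at h
      have h2 := (Prod.ext_iff.1 h).2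
      have h3 : s(u, i) = s(u, j) := congrArg Subtype.val h2
      rw [Sym2.eq_iff] at h3
      rcases h3 with h3 | h3
      · exact hij h3.2
      · exact huj h3.1
    · rw [Finset.card_erase_of_mem (Finset.mem_univ u), Finset.card_univ, Fintype.card_fin]
      omega
  have hsub : ∀ ω : Idx N M → Bool, ¬ ((∀ u v, dE (HH ω) u v ≤ 64 * (p * M)) ∧
        ∀ u c, dC (HH ω) u c ≤ 64 * (p * M)) →
      (∃ x ∈ (Finset.univ : Finset (Fin N × Fin N)), A x ω) ∨
      (∃ x ∈ (Finset.univ : Finset (Fin N × Fin M)), B x ω) := by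
    intro ω h
    by_contra hc
    rw [not_or] at hc
    obtain ⟨c1, c2⟩ := hc
    apply h
    constructor
    · intro u v
      by_contra hlt
      apply c1
      refine ⟨(u, v), Finset.mem_univ _, ?_, (not_le.1 hlt).le⟩
      intro huv
      apply hlt
      have huv' : u = v := huv
      subst huv'
      unfold dE
      rw [Finset.sum_eq_zero]
      · positivity
      · intro c _
        rw [if_neg (hh_irr ω u c)]
    · intro u c
      by_contra hlt
      apply c2
      exact ⟨(u, c), Finset.mem_univ _, (not_le.1 hlt).le⟩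
  refine le_trans (Pr_mono h0.le h1 hsub) ?_
  refine le_trans (Pr_or_le h0.le h1 _ _) ?_
  have s1 := Pr_exists_le (p := p) h0.le h1 (Finset.univ : Finset (Fin N × Fin N)) A
  have s2 := Pr_exists_le (p := p) h0.le h1 (Finset.univ : Finset (Fin N × Fin M)) B
  have s3 : ∑ x : Fin N × Fin N, Pr p (A x) ≤ N * N * (1 / (N : ℝ) ^ 8) := by
    refine le_trans (Finset.sum_le_card_nsmul _ _ _ fun x _ => hA x) ?_
    simp
  have s4 : ∑ x : Fin N × Fin M, Pr p (B x) ≤ N * M * (1 / (N : ℝ) ^ 8) := by
    refine le_trans (Finset.sum_le_card_nsmul _ _ _ fun x _ => hB x) ?_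
    simp
  have hMN : (M : ℝ) ≤ N := by
    rw [hNM]; push_cast; linarith
  have s5 : (N : ℝ) * N * (1 / (N : ℝ) ^ 8) + N * M * (1 / (N : ℝ) ^ 8) ≤ 1 / (N : ℝ) ^ 5 := by
    have : (N : ℝ) * N * (1 / (N : ℝ) ^ 8) + N * M * (1 / (N : ℝ) ^ 8) ≤
        2 * (N : ℝ) ^ 2 * (1 / (N : ℝ) ^ 8) := by
      have h8 : (0 : ℝ) ≤ 1 / (N : ℝ) ^ 8 := by positivity
      nlinarith [mul_le_mul_of_nonneg_left hMN (mul_nonneg hNpos.le h8)]
    refine this.trans ?_
    rw [mul_one_div, div_le_div_iff₀ (by positivity) (by positivity)]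
    have h6 : (2 : ℝ) * N ^ 2 * N ^ 5 ≤ N * (N ^ 2 * N ^ 5) := by
      have : (0 : ℝ) ≤ N ^ 2 * N ^ 5 := by positivity
      nlinarith
    calc (2 : ℝ) * N ^ 2 * N ^ 5 ≤ N * (N ^ 2 * N ^ 5) := h6
      _ = 1 * N ^ 8 := by ring
  linarith

end Pool.Agent.FR
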