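import Pool.Agent.Lib.MP_dcb6ed_co.Defs

/-!
Project FR, module Weights: the first approximation `w0` has almost the right sums.
-/

set_option autoImplicit false

namespace Pool.Agent.FR

open Finset Classical

namespace Weights

theorem num_up {κ : ℝ} (h0 : 0 ≤ κ) (h1 : κ ≤ 1 / 4) : 1 / (1 - κ) ^ 2 ≤ 1 + 6 * κ := by
  have h2 : 0 < (1 - κ) ^ 2 := by
    have : 0 < 1 - κ := by linarith
    positivity
  rw [div_le_iff₀ h2]
  have h3 : 0 ≤ κ * (4 - 11 * κ + 6 * κ ^ 2) := by
    apply mul_nonneg h0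
    nlinarith [sq_nonneg κ]
  nlinarith [h3]

theorem num_lo {κ : ℝ} (h0 : 0 ≤ κ) : 1 - 2 * κ ≤ 1 / (1 + κ) ^ 2 := by
  have h2 : 0 < (1 + κ) ^ 2 := by positivity
  rw [le_div_iff₀ h2]
  have h3 : 0 ≤ κ ^ 2 * (3 + 2 * κ) := by positivity
  nlinarith [h3]

/-- Bounds for one weight. -/
theorem one_lo {D d x y : ℝ} (hD : 0 < D) (hd : 0 < d) (hx : 0 < x) (hy : 0 < y)
    (hd' : d ≤ 64 * D) (hx' : x ≤ 64 * D) (hy' : y ≤ 64 * D) :
    1 / 64 ^ 3 ≤ D ^ 3 / (d * x * y) := by
  rw [div_le_div_iff₀ (by norm_num) (by positivity)]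
  have h1 : d * x ≤ 64 * D * (64 * D) := mul_le_mul hd' hx' hx.le (by positivity)
  have h2 : d * x * y ≤ 64 * D * (64 * D) * (64 * D) := mul_le_mul h1 hy' hy.le (by positivity)
  linarith [h2]

theorem one_up {D d x y δ : ℝ} (hD : 0 < D) (hδ : 0 < δ) (hd : δ * D ≤ d) (hx : δ * D ≤ x)
    (hy : δ * D ≤ y) : D ^ 3 / (d * x * y) ≤ 1 / δ ^ 3 := by
  have hp : 0 < δ * D := mul_pos hδ hD
  have h1 : δ * D * (δ * D) ≤ d * x := mul_le_mul hd hx hp.le (hp.le.trans hd)
  have h2 : δ * D * (δ * D) * (δ * D) ≤ d * x * y :=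
    mul_le_mul h1 hy hp.le ((mul_pos hp hp).le.trans h1)
  have h3 : 0 < d * x * y := lt_of_lt_of_le (by positivity) h2
  rw [div_le_div_iff₀ h3 (by positivity)]
  linarith [h2]

/-- Upper bound for one weight with a typical pair. -/
theorem typ_up {D d x y κ : ℝ} (hD : 0 < D) (hd : 0 < d) (h1 : κ ≤ 1 / 4)
    (hx : |x - D| ≤ κ * D) (hy : |y - D| ≤ κ * D) :
    D ^ 3 / (d * x * y) ≤ D / d * (1 / (1 - κ) ^ 2) := by
  have hx1 : (1 - κ) * D ≤ x := by have := (abs_le.1 hx).1; linarith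
  have hy1 : (1 - κ) * D ≤ y := by have := (abs_le.1 hy).1; linarith
  have hk : 0 < 1 - κ := by linarith
  have hp : 0 < (1 - κ) * D := mul_pos hk hD
  have hxp : 0 < x := lt_of_lt_of_le hp hx1
  have hyp : 0 < y := lt_of_lt_of_le hp hy1
  have h2 : (1 - κ) * D * ((1 - κ) * D) ≤ x * y := mul_le_mul hx1 hy1 hp.le hxp.le
  rw [div_mul_div_comm, div_le_div_iff₀ (by positivity) (by positivity)]
  have h3 : 0 ≤ D * d * (x * y - (1 - κ) * D * ((1 - κ) * D)) :=
    mul_nonneg (by positivity) (by linarith)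
  nlinarith [h3]

/-- Lower bound for one weight with a typical pair. -/
theorem typ_lo {D d x y κ : ℝ} (hD : 0 < D) (hd : 0 < d) (h0 : 0 ≤ κ)
    (hx0 : 0 < x) (hy0 : 0 < y) (hx : |x - D| ≤ κ * D) (hy : |y - D| ≤ κ * D) :
    D / d * (1 / (1 + κ) ^ 2) ≤ D ^ 3 / (d * x * y) := by
  have hx1 : x ≤ (1 + κ) * D := by have := (abs_le.1 hx).2; linarith
  have hy1 : y ≤ (1 + κ) * D := by have := (abs_le.1 hy).2; linarith
  have h2 : x * y ≤ (1 + κ) * D * ((1 + κ) * D) := mul_le_mul hx1 hy1 hy0.le (by positivity)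
  rw [div_mul_div_comm, div_le_div_iff₀ (by positivity) (by positivity)]
  have h3 : 0 ≤ D * d * ((1 + κ) * D * ((1 + κ) * D) - x * y) :=
    mul_nonneg (by positivity) (by linarith)
  nlinarith [h3]

/-- The abstract statement. -/
theorem main {ι : Type} [Fintype ι] (δ κ κ2 D d m0 : ℝ) (h g : ι → Prop) (x y w : ι → ℝ)
    (hδ : 0 < δ) (hδ1 : δ ≤ 1) (hκ0 : 0 < κ) (hκ1 : κ ≤ 1 / 4) (hκ3 : κ ≤ δ / 3)
    (hκ4 : κ ≤ κ2 * δ ^ 3 / 8) (hD : 0 < D) (hm : m0 ≤ κ * D)
    (hgh : ∀ i, g i → h i)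
    (hd : d = ∑ i, if h i then (1 : ℝ) else 0) (hdl : δ * D ≤ d)
    (hx : ∀ i, g i → δ * D ≤ x i) (hy : ∀ i, g i → δ * D ≤ y i)
    (hl : (∑ i, if h i ∧ ¬ g i then (1 : ℝ) else 0) ≤ m0)
    (hax : (∑ i, if h i ∧ κ * D < |x i - D| then (1 : ℝ) else 0) ≤ κ * D)
    (hay : (∑ i, if h i ∧ κ * D < |y i - D| then (1 : ℝ) else 0) ≤ κ * D)
    (hw1 : ∀ i, g i → w i = D ^ 3 / (d * x i * y i)) (hw0 : ∀ i, ¬ g i → w i = 0) :
    |(∑ i, w i) - D| ≤ κ2 * D := by
  have hp : 0 < δ * D := mul_pos hδ hD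
  have hd0 : 0 < d := lt_of_lt_of_le hp hdl
  have hDd : 0 < D / d := div_pos hD hd0
  have hDd2 : D / d ≤ 1 / δ := by
    rw [div_le_div_iff₀ hd0 hδ]; linarith
  have hκ2 : 8 * κ / δ ^ 3 ≤ κ2 := by
    rw [div_le_iff₀ (by positivity)]
    linarith
  have hδ3 : δ ^ 3 ≤ 1 := pow_le_one₀ hδ.le hδ1
  have hδ3' : δ ^ 3 ≤ δ := by
    calc δ ^ 3 ≤ δ ^ 1 := pow_le_pow_of_le_one hδ.le hδ1 (by norm_num)
      _ = δ := pow_one δ
  have hκδ : κ ≤ κ / δ ^ 3 := by
    rw [le_div_iff₀ (by positivity)]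
    nlinarith
  have hκδ1 : κ / δ ≤ κ / δ ^ 3 := div_le_div_of_nonneg_left hκ0.le (by positivity) hδ3'
  rw [abs_le]
  constructor
  · -- lower bound
    have key : ∀ i, D / d * (1 / (1 + κ) ^ 2) * ((if h i then (1 : ℝ) else 0) -
        (if h i ∧ ¬ g i then (1 : ℝ) else 0) - (if h i ∧ κ * D < |x i - D| then (1 : ℝ) else 0) -
        (if h i ∧ κ * D < |y i - D| then (1 : ℝ) else 0)) ≤ w i := by
      intro i
      have hc : 0 ≤ D / d * (1 / (1 + κ) ^ 2) := by positivity
      by_cases hg : g i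
      · have hh := hgh i hg
        have hwn : 0 ≤ w i := by
          rw [hw1 i hg]
          have := hx i hg
          have := hy i hg
          have hxp : 0 < x i := lt_of_lt_of_le hp (hx i hg)
          have hyp : 0 < y i := lt_of_lt_of_le hp (hy i hg)
          positivity
        by_cases hxa : κ * D < |x i - D|
        · refine le_trans (mul_nonpos_of_nonneg_of_nonpos hc ?_) hwn
          simp only [hh, hg, hxa, true_and, not_true_eq_false, if_true, if_false]
          split_ifs <;> norm_num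
        · by_cases hya : κ * D < |y i - D|
          · refine le_trans (mul_nonpos_of_nonneg_of_nonpos hc ?_) hwn
            simp only [hh, hg, hxa, hya, true_and, not_true_eq_false, if_true, if_false]
            norm_num
          · simp only [hh, hg, hxa, hya, true_and, not_true_eq_false, if_true, if_false]
            rw [hw1 i hg]
            have hxp : 0 < x i := lt_of_lt_of_le hp (hx i hg)
            have hyp : 0 < y i := lt_of_lt_of_le hp (hy i hg)
            have := typ_lo hD hd0 hκ0.le hxp hyp (not_lt.1 hxa) (not_lt.1 hya)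
            linarith
      · rw [hw0 i hg]
        apply mul_nonpos_of_nonneg_of_nonpos hc
        by_cases hh : h i
        · simp only [hh, hg, true_and, not_false_eq_true, if_true]
          split_ifs <;> norm_num
        · simp only [hh, false_and, if_false]
          norm_num
    have hs := Finset.sum_le_sum (fun i (_ : i ∈ Finset.univ) => key i)
    rw [← Finset.mul_sum, Finset.sum_sub_distrib, Finset.sum_sub_distrib,
      Finset.sum_sub_distrib, ← hd] at hs
    have hc : 0 ≤ D / d * (1 / (1 + κ) ^ 2) := by positivity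
    have h3 : D / d * (1 / (1 + κ) ^ 2) * (d - 3 * (κ * D)) ≤ ∑ i, w i := by
      refine le_trans (mul_le_mul_of_nonneg_left ?_ hc) hs
      linarith
    have h4 : D / d * (1 / (1 + κ) ^ 2) * (d - 3 * (κ * D))
        = D * ((1 / (1 + κ) ^ 2) * (1 - 3 * κ * (D / d))) := by
      field_simp
    have h5 : 1 - 3 * κ / δ ≤ 1 - 3 * κ * (D / d) := by
      have : 3 * κ * (D / d) ≤ 3 * κ * (1 / δ) := mul_le_mul_of_nonneg_left hDd2 (by positivity)
      have e : 3 * κ * (1 / δ) = 3 * κ / δ := by ring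
      linarith
    have h6 : 0 ≤ 1 - 3 * κ / δ := by
      have : 3 * κ / δ ≤ 1 := by
        rw [div_le_iff₀ hδ]; linarith
      linarith
    have h7 : (1 - 2 * κ) * (1 - 3 * κ / δ) ≤ (1 / (1 + κ) ^ 2) * (1 - 3 * κ * (D / d)) :=
      mul_le_mul (num_lo hκ0.le) h5 h6 (by positivity)
    have h8 : 1 - κ2 ≤ (1 - 2 * κ) * (1 - 3 * κ / δ) := by
      have e1 : 0 ≤ 2 * κ * (3 * κ / δ) := by positivity
      have e2 : 3 * κ / δ = 3 * (κ / δ) := by ring
      have e3 : 8 * κ / δ ^ 3 = 8 * (κ / δ ^ 3) := by ring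
      have e4 : (1 - 2 * κ) * (1 - 3 * κ / δ) = 1 - 2 * κ - 3 * κ / δ + 2 * κ * (3 * κ / δ) := by
        ring
      rw [e4, e2]
      rw [e2] at e1
      rw [e3] at hκ2
      have e5 : 0 < κ / δ ^ 3 := by positivity
      linarith
    have h9 : D * (1 - κ2) ≤ D * ((1 / (1 + κ) ^ 2) * (1 - 3 * κ * (D / d))) :=
      mul_le_mul_of_nonneg_left (h8.trans h7) hD.le
    rw [h4] at h3
    linarith
  · -- upper bound
    have key : ∀ i, w i ≤ D / d * (1 / (1 - κ) ^ 2 * (if h i then (1 : ℝ) else 0) +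
        1 / δ ^ 2 * (if h i ∧ κ * D < |x i - D| then (1 : ℝ) else 0) +
        1 / δ ^ 2 * (if h i ∧ κ * D < |y i - D| then (1 : ℝ) else 0)) := by
      intro i
      have hk : 0 < 1 - κ := by linarith
      by_cases hg : g i
      · have hh := hgh i hg
        have hxg := hx i hg
        have hyg := hy i hg
        have hxp : 0 < x i := lt_of_lt_of_le hp (hx i hg)
        have hyp : 0 < y i := lt_of_lt_of_le hp (hy i hg)
        have hat : w i ≤ D / d * (1 / δ ^ 2) := by
          rw [hw1 i hg, div_mul_div_comm, div_le_div_iff₀ (by positivity) (by positivity)]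
          have e1 : δ * D * (δ * D) ≤ x i * y i := mul_le_mul hxg hyg hp.le hxp.le
          have e2 : 0 ≤ D * d * (x i * y i - δ * D * (δ * D)) :=
            mul_nonneg (by positivity) (by linarith)
          nlinarith [e2]
        have hn1 : 0 ≤ 1 / (1 - κ) ^ 2 := by positivity
        have hn2 : 0 ≤ 1 / δ ^ 2 := by positivity
        by_cases hxa : κ * D < |x i - D|
        · refine le_trans hat (mul_le_mul_of_nonneg_left ?_ hDd.le)
          simp only [hh, hxa, true_and, if_true, mul_one]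
          split_ifs
          · linarith
          · linarith
        · by_cases hya : κ * D < |y i - D|
          · refine le_trans hat (mul_le_mul_of_nonneg_left ?_ hDd.le)
            simp only [hh, hxa, hya, true_and, if_true, if_false, mul_one, mul_zero]
            linarith
          · simp only [hh, hxa, hya, true_and, if_true, if_false, mul_one, mul_zero, add_zero]
            rw [hw1 i hg]
            exact typ_up hD hd0 hκ1 (not_lt.1 hxa) (not_lt.1 hya)
      · rw [hw0 i hg]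
        apply mul_nonneg hDd.le
        have e1 : (0 : ℝ) ≤ if h i then (1 : ℝ) else 0 := by split_ifs <;> norm_num
        have e2 : (0 : ℝ) ≤ if h i ∧ κ * D < |x i - D| then (1 : ℝ) else 0 := by
          split_ifs <;> norm_num
        have e3 : (0 : ℝ) ≤ if h i ∧ κ * D < |y i - D| then (1 : ℝ) else 0 := by
          split_ifs <;> norm_num
        positivity
    have hs := Finset.sum_le_sum (fun i (_ : i ∈ Finset.univ) => key i)
    rw [← Finset.mul_sum, Finset.sum_add_distrib, Finset.sum_add_distrib,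
      ← Finset.mul_sum, ← Finset.mul_sum, ← Finset.mul_sum, ← hd] at hs
    have hn2 : 0 ≤ 1 / δ ^ 2 := by positivity
    have h1 : ∑ i, w i ≤ D / d * (1 / (1 - κ) ^ 2 * d + 1 / δ ^ 2 * (κ * D) +
        1 / δ ^ 2 * (κ * D)) := by
      refine le_trans hs (mul_le_mul_of_nonneg_left ?_ hDd.le)
      have e1 := mul_le_mul_of_nonneg_left hax hn2
      have e2 := mul_le_mul_of_nonneg_left hay hn2
      linarith
    have h2 : D / d * (1 / (1 - κ) ^ 2 * d + 1 / δ ^ 2 * (κ * D) + 1 / δ ^ 2 * (κ * D))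
        = D * (1 / (1 - κ) ^ 2 + 2 * κ * (1 / δ ^ 2) * (D / d)) := by
      have hk : (1 - κ) ≠ 0 := by
        have : 0 < 1 - κ := by linarith
        exact this.ne'
      field_simp
      ring
    have h3 : 2 * κ * (1 / δ ^ 2) * (D / d) ≤ 2 * (κ / δ ^ 3) := by
      have e1 : 2 * κ * (1 / δ ^ 2) * (D / d) ≤ 2 * κ * (1 / δ ^ 2) * (1 / δ) :=
        mul_le_mul_of_nonneg_left hDd2 (by positivity)
      have e2 : 2 * κ * (1 / δ ^ 2) * (1 / δ) = 2 * (κ / δ ^ 3) := by
        field_simp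
      linarith
    have h4 := num_up hκ0.le hκ1
    have e3 : 8 * κ / δ ^ 3 = 8 * (κ / δ ^ 3) := by ring
    rw [e3] at hκ2
    have h5 : 1 / (1 - κ) ^ 2 + 2 * κ * (1 / δ ^ 2) * (D / d) ≤ 1 + κ2 := by linarith
    have h6 := mul_le_mul_of_nonneg_left h5 hD.le
    rw [h2] at h1
    linarith

end Weights

theorem weights (δ κ2 : ℝ) (hδ : 0 < δ) (hδ1 : δ ≤ 1) (hκ2 : 0 < κ2) :
    ∃ κ : ℝ, 0 < κ ∧ ∀ (N M : ℕ) (H : Fin N → Fin N → Fin M → Prop) (RE : Fin N → Fin N → Prop)
        (RC : Fin N → Fin M → Prop) (p η m0 : ℝ),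
        0 < M → Rnd N M H p η → Rem N M H RE RC p δ m0 → Atyp N M H p κ → m0 ≤ κ * (p * M) →
        (∀ u v c, Good H RE RC u v c →
          1 / 64 ^ 3 ≤ w0 H RE RC (p * M) u v c ∧ w0 H RE RC (p * M) u v c ≤ 1 / δ ^ 3) ∧
        (∀ u v, u ≠ v → ¬ RE u v →
          |(∑ c, w0 H RE RC (p * M) u v c) - p * M| ≤ κ2 * (p * M)) ∧
        (∀ u c, ¬ RC u c →
          |(∑ v, w0 H RE RC (p * M) u v c) - p * M| ≤ κ2 * (p * M)) := by
  have hpos : 0 < κ2 * δ ^ 3 / 8 := by positivity
  refine ⟨min (1 / 4) (min (δ / 3) (κ2 * δ ^ 3 / 8)),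
    lt_min (by norm_num) (lt_min (by positivity) hpos), ?_⟩
  intro N M H RE RC p η m0 hM hR hRem hA hm
  set κ := min (1 / 4) (min (δ / 3) (κ2 * δ ^ 3 / 8)) with hκdef
  have hκ0 : 0 < κ := lt_min (by norm_num) (lt_min (by positivity) hpos)
  have hκ1 : κ ≤ 1 / 4 := min_le_left _ _
  have hκ3 : κ ≤ δ / 3 := (min_le_right _ _).trans (min_le_left _ _)
  have hκ4 : κ ≤ κ2 * δ ^ 3 / 8 := (min_le_right _ _).trans (min_le_right _ _)
  have hD : 0 < p * M := mul_pos hR.p0 (by exact_mod_cast hM)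
  have hne : ∀ u v c, H u v c → u ≠ v := by
    intro u v c h e
    subst e
    exact hR.irr _ _ h
  have hgE : ∀ u v c, Good H RE RC u v c → δ * (p * M) ≤ dE H u v :=
    fun u v c h => hRem.lowE u v (hne u v c h.1) h.2.1
  have hgC1 : ∀ u v c, Good H RE RC u v c → δ * (p * M) ≤ dC H u c :=
    fun u v c h => hRem.lowC u c h.2.2.1
  have hgC2 : ∀ u v c, Good H RE RC u v c → δ * (p * M) ≤ dC H v c :=
    fun u v c h => hRem.lowC v c h.2.2.2
  have hp : 0 < δ * (p * M) := mul_pos hδ hD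
  refine ⟨?_, ?_, ?_⟩
  · intro u v c h
    have e : w0 H RE RC (p * M) u v c = (p * M) ^ 3 / (dE H u v * dC H u c * dC H v c) := by
      unfold w0; rw [if_pos h]
    rw [e]
    exact ⟨Weights.one_lo hD (hp.trans_le (hgE u v c h)) (hp.trans_le (hgC1 u v c h))
      (hp.trans_le (hgC2 u v c h)) (hR.upE u v) (hR.upC u c) (hR.upC v c),
      Weights.one_up hD hδ (hgE u v c h) (hgC1 u v c h) (hgC2 u v c h)⟩
  · intro u v huv hRE
    refine Weights.main δ κ κ2 (p * M) (dE H u v) m0 (fun c => H u v c)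
      (fun c => Good H RE RC u v c) (fun c => dC H u c) (fun c => dC H v c) _ hδ hδ1 hκ0 hκ1 hκ3
      hκ4 hD hm (fun c h => h.1) rfl (hRem.lowE u v huv hRE) (fun c h => hgC1 u v c h)
      (fun c h => hgC2 u v c h) ?_ ?_ ?_ ?_ ?_
    · refine le_trans (le_of_eq (Finset.sum_congr rfl fun c _ => ?_)) (hRem.lossE u v huv hRE)
      apply if_congr _ rfl rfl
      unfold Good
      tauto
    · refine le_trans (le_of_eq (Finset.sum_congr rfl fun c _ => ?_)) (hA.ec u v)
      exact if_congr Iff.rfl rfl rfl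
    · refine le_trans (le_of_eq (Finset.sum_congr rfl fun c _ => ?_)) (hA.ec v u)
      apply if_congr _ rfl rfl
      constructor
      · rintro ⟨h1, h2⟩; exact ⟨hR.symm _ _ _ h1, h2⟩
      · rintro ⟨h1, h2⟩; exact ⟨hR.symm _ _ _ h1, h2⟩
    · intro c h
      unfold w0; rw [if_pos h]
    · intro c h
      unfold w0; rw [if_neg h]
  · intro u c hRC
    refine Weights.main δ κ κ2 (p * M) (dC H u c) m0 (fun v => H u v c)
      (fun v => Good H RE RC u v c) (fun v => dE H u v) (fun v => dC H v c) _ hδ hδ1 hκ0 hκ1 hκ3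
      hκ4 hD hm (fun v h => h.1) rfl (hRem.lowC u c hRC) (fun v h => hgE u v c h)
      (fun v h => hgC2 u v c h) ?_ ?_ ?_ ?_ ?_
    · refine le_trans (le_of_eq (Finset.sum_congr rfl fun v _ => ?_)) (hRem.lossC u c hRC)
      apply if_congr _ rfl rfl
      unfold Good
      tauto
    · refine le_trans (le_of_eq (Finset.sum_congr rfl fun v _ => ?_)) (hA.ce u c)
      exact if_congr Iff.rfl rfl rfl
    · refine le_trans (le_of_eq (Finset.sum_congr rfl fun v _ => ?_)) (hA.cc u c)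
      exact if_congr Iff.rfl rfl rfl
    · intro v h
      unfold w0; rw [if_pos h]
      congr 1
      ring
    · intro v h
      unfold w0; rw [if_neg h]

end Pool.Agent.FR
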